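import Pool.Agent.Lib.MP_72f1d0_gt.Rel.Stage
import Pool.Agent.Lib.MP_72f1d0_gt.PC.Holes

/-!
The topological assembly relative to a closed set `B`.
-/

set_option linter.unusedSectionVars false

open scoped ContDiff Manifold Topology
open Set Filter Metric

namespace Pool.Agent.Lib.MP_72f1d0_gt.Rel

open PC PC.Holes
open Eq.Stmt (Distr Data IsPath derived diff Engel)
open Eq.Man (dp Fv)

noncomputable section

section Abstract

variable {E₂ H₂ : Type*} [NormedAddCommGroup E₂] [NormedSpace ℝ E₂] [FiniteDimensional ℝ E₂]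
  [TopologicalSpace H₂] {J : ModelWithCorners ℝ E₂ H₂} {S : Type*} [TopologicalSpace S]
  [ChartedSpace H₂ S] [IsManifold J ∞ S] [T2Space S] [CompactSpace S]

variable (J) in
/-- The properties of the family `W` of sets on which the formal datum can be made genuine
without moving the points near `B`. -/
structure SysF (B : Set S) (W : Set S → Prop) : Prop where
  closed : IsClosed B
  mono : ∀ A A' : Set S, A' ⊆ A → W A → W A'
  start : ∃ A ∈ 𝓝ˢ B, W A
  rep : ∀ (A : Set S) (φ : S → S), IsoF J (𝓝ˢ B) φ → W A → W (φ ⁻¹' A)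
  circ : ∀ π : ℂ → S, Disc J π → range π ⊆ Bᶜ → ∀ C : Set S, IsClosed C → ∀ A ∈ 𝓝ˢ C, W A →
    ∃ A' ∈ 𝓝ˢ (C ∪ π '' sphere 0 1), W A'
  ann : ∀ p : S, p ∉ B → (∀ y ∈ connectedComponentIn Bᶜ p, J.IsInteriorPoint y) →
    ∃ ψ : Q → S, Ann J ψ ∧ range ψ ⊆ connectedComponentIn Bᶜ p ∧ ∃ b : ℝ, 0 < b ∧
      ∀ A : Set S, W A → (∀ q : Q, b ≤ |q.1| → ψ q ∈ A) → W (A ∪ range ψ)

variable {W : Set S → Prop} {B₀ : Set S}

lemma away_disc {π : ℂ → S} (hπ : Disc J π) (hB : range π ⊆ B₀ᶜ) (R : ℝ) :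
    ∀ᶠ p in 𝓝ˢ B₀, p ∉ π '' closedBall 0 R :=
  ((isCompact_closedBall _ _).image (disc_cont hπ)).isClosed.isOpen_compl.mem_nhdsSet.2
    fun _ hp hp' => hB (image_subset_range _ _ hp') hp

lemma away_pt (hB : IsClosed B₀) {q : S} (hq : q ∉ B₀) :
    ∃ V ∈ 𝓝 q, ∀ᶠ p in 𝓝ˢ B₀, p ∉ V := by
  have h : Disjoint (𝓝ˢ B₀) (𝓝 q) := disjoint_nhdsSet_nhds.2 (by rwa [hB.closure_eq])
  obtain ⟨s, hs, t, ht, hd⟩ := Filter.disjoint_iff.1 h
  exact ⟨t, ht, mem_of_superset hs fun p hp hp' => Set.disjoint_left.1 hd hp hp'⟩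

lemma IsoF.fix {φ : S → S} (h : IsoF J (𝓝ˢ B₀) φ) {p : S} (hp : p ∈ B₀) : φ p = p := by
  obtain ⟨Φ, -, -, h3, -, h5⟩ := h
  rw [← h3, h5.self_of_nhdsSet p hp 1]

/-- Adding a closed disc, at the price of one more hole. -/
lemma psi_stepF (hW : SysF J B₀ W) {K P : Set S} (hK : IsClosed K) (h : Psi W K P)
    {π : ℂ → S} (hπ : Disc J π) (hπB : range π ⊆ B₀ᶜ) :
    Psi W (K ∪ π '' closedBall 0 1) (insert (π 0) P) := by
  intro U hU hPU
  obtain ⟨A, hA, hWA⟩ := h U hU ((subset_insert _ _).trans hPU)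
  obtain ⟨B, hB, hWB⟩ := hW.circ π hπ hπB (K \ U) (hK.sdiff hU) A hA hWA
  have hB' : K \ U ∪ π '' sphere 0 1 ⊆ interior B := subset_interior_iff_mem_nhdsSet.2 hB
  have ho : IsOpen (ball (0 : ℂ) 1 ∪ π ⁻¹' interior B) :=
    isOpen_ball.union (isOpen_interior.preimage (disc_cont hπ))
  have hsub : closedBall (0 : ℂ) 1 ⊆ ball (0 : ℂ) 1 ∪ π ⁻¹' interior B := by
    intro z hz
    by_cases hz1 : z ∈ ball (0 : ℂ) 1
    · exact Or.inl hz1
    · refine Or.inr (hB' (Or.inr ⟨z, ?_, rfl⟩))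
      rw [mem_sphere]
      exact le_antisymm (mem_closedBall.1 hz) (not_lt.1 fun h' => hz1 (mem_ball.2 h'))
  obtain ⟨δ, hδ, hth⟩ := (isCompact_closedBall (0 : ℂ) 1).exists_thickening_subset_open ho hsub
  rw [thickening_closedBall hδ zero_le_one] at hth
  obtain ⟨ε, hε, hεU⟩ := disc_ball hπ hU (hPU (mem_insert _ _))
  obtain ⟨φ, hφ, hout, hin, hpre⟩ := shrinkF hπ (r := 1) (R := δ + 1) (a := 0)
    (by linarith) hε (by simp) (away_disc hπ hπB _)
  refine ⟨φ ⁻¹' interior B, ?_, hW.rep _ φ hφ (hW.mono _ _ interior_subset hWB)⟩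
  refine (isOpen_interior.preimage hφ.cont.1).mem_nhdsSet.2 ?_
  rintro p ⟨hp, hpU⟩
  by_cases hb : p ∈ π '' ball 0 (δ + 1)
  · obtain ⟨z, hz, hzp⟩ := hin hb
    rcases hth hz with h1 | h1
    · exact absurd (hεU (hpre p ⟨z, ball_subset_closedBall h1, hzp⟩)) hpU
    · show φ p ∈ interior B
      rw [← hzp]; exact h1
  · show φ p ∈ interior B
    rw [hout p hb]
    rcases hp with hp | hp
    · exact hB' (Or.inl ⟨hp, hpU⟩)
    · exact absurd (image_mono (closedBall_subset_ball (by linarith)) hp) hb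

/-- Finitely many discs. -/
lemma psi_finsetF (hW : SysF J B₀ W) {ι : Type*} (π : ι → ℂ → S) (hπ : ∀ i, Disc J (π i))
    (hπB : ∀ i, range (π i) ⊆ B₀ᶜ) {K₀ : Set S} (hK₀ : IsClosed K₀) (h₀ : Psi W K₀ ∅)
    (t : Finset ι) :
    ∃ K P : Set S, IsClosed K ∧ P.Finite ∧ P ⊆ B₀ᶜ ∧ K₀ ⊆ K ∧
      (∀ i ∈ t, π i '' ball 0 1 ⊆ K) ∧ Psi W K P := by
  classical
  induction t using Finset.induction_on with
  | empty => exact ⟨K₀, ∅, hK₀, finite_empty, empty_subset _, subset_rfl, by simp, h₀⟩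
  | insert i t _ ih =>
    obtain ⟨K, P, hK, hP, hPB, hKK, hcov, h⟩ := ih
    refine ⟨K ∪ π i '' closedBall 0 1, insert (π i 0) P,
      hK.union ((isCompact_closedBall _ _).image (disc_cont (hπ i))).isClosed, hP.insert _,
      insert_subset (hπB i (mem_range_self _)) hPB, hKK.trans subset_union_left, ?_,
      psi_stepF hW hK h (hπ i) (hπB i)⟩
    intro j hj
    rcases Finset.mem_insert.1 hj with rfl | hj
    · exact (image_mono ball_subset_closedBall).trans subset_union_right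
    · exact (hcov j hj).trans subset_union_left

/-- A compact set that misses `B₀` can be pushed into the interior. -/
lemma push_allF (hB : IsClosed B₀) {Z : Set S} (hZ : IsCompact Z) (hZB : Z ⊆ B₀ᶜ) :
    ∃ φ : S → S, IsoF J (𝓝ˢ B₀) φ ∧ (∀ p, φ p = p ∨ J.IsInteriorPoint (φ p)) ∧
      ∀ p, φ p ∈ Z → J.IsInteriorPoint (φ p) := by
  refine hZ.induction_on (p := fun A : Set S => ∃ φ : S → S, IsoF J (𝓝ˢ B₀) φ ∧
    (∀ p, φ p = p ∨ J.IsInteriorPoint (φ p)) ∧ ∀ p, φ p ∈ A → J.IsInteriorPoint (φ p))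
    ⟨fun p => p, isoF_id _, fun _ => Or.inl rfl, fun _ h => h.elim⟩ ?_ ?_ ?_
  · rintro A B hAB ⟨φ, h1, h2, h3⟩
    exact ⟨φ, h1, h2, fun p hp => h3 p (hAB hp)⟩
  · rintro A B ⟨φ, h1, h2, h3⟩ ⟨φ', h1', h2', h3'⟩
    refine ⟨fun p => φ (φ' p), h1.comp h1', fun p => ?_, fun p hp => ?_⟩
    · rcases h2 (φ' p) with h | h
      · beta_reduce; rw [h]; exact h2' p
      · exact Or.inr h
    · rcases hp with hp | hp
      · exact h3 _ hp
      · rcases h2 (φ' p) with h | h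
        · beta_reduce at hp ⊢; rw [h] at hp ⊢; exact h3' p hp
        · exact h
  · intro q hqZ
    rcases J.isInteriorPoint_or_isBoundaryPoint q with hq | hq
    · refine ⟨J.interior S, mem_nhdsWithin_of_mem_nhds
        ((J.isOpen_interior (n := ∞) (by simp)).mem_nhds hq),
        fun p => p, isoF_id _, fun _ => Or.inl rfl, fun _ h => h⟩
    · obtain ⟨V, hV, hF⟩ := away_pt hB (hZB hqZ)
      obtain ⟨φ, h1, -, h2, N, hN, h3⟩ := pushF hq hV hF
      exact ⟨N, mem_nhdsWithin_of_mem_nhds hN, φ, h1, h2, fun p hp => absurd hp (h3 p)⟩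

/-- Finitely many holes suffice. -/
lemma exists_holesF (hW : SysF J B₀ W) (hD : DiscStmt J S) :
    ∃ P : Set S, P.Finite ∧ P ⊆ B₀ᶜ ∧ Phi W P := by
  obtain ⟨A₀, hA₀, hWA₀⟩ := hW.start
  obtain ⟨K₀, hK₀, hK₀c, hK₀A⟩ := exists_mem_nhdsSet_isClosed_subset
    (isOpen_interior.mem_nhdsSet.2 (subset_interior_iff_mem_nhdsSet.2 hA₀)) hW.closed
  have hBK : B₀ ⊆ interior K₀ := subset_interior_iff_mem_nhdsSet.2 hK₀
  have hZ : IsCompact (interior K₀)ᶜ := isOpen_interior.isClosed_compl.isCompact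
  obtain ⟨φ, hφ, -, hint⟩ := push_allF (J := J) hW.closed hZ (compl_subset_compl.2 hBK)
  obtain ⟨hc, hi⟩ := hφ.cont
  have hZ' : IsCompact (range φ ∩ (interior K₀)ᶜ) :=
    (isCompact_range hc).inter_right isOpen_interior.isClosed_compl
  have hx : ∀ z : ↥(range φ ∩ (interior K₀)ᶜ), ∃ π : ℂ → S, Disc J π ∧ π 0 = z ∧
      range π ⊆ B₀ᶜ := by
    rintro ⟨_, ⟨p, rfl⟩, hp⟩
    exact disc_in hD (hint p hp) hW.closed.isOpen_compl fun h => hp (hBK h)
  choose π hπ hπ0 hπB using hx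
  obtain ⟨t, ht⟩ := hZ'.elim_finite_subcover (fun z => π z '' ball 0 1)
    (fun z => disc_open (hπ z) _ isOpen_ball) (fun z hz =>
      mem_iUnion.2 ⟨⟨z, hz⟩, 0, mem_ball_self one_pos, hπ0 ⟨z, hz⟩⟩)
  obtain ⟨K, P, -, hP, hPB, hKK, hcov, h⟩ := psi_finsetF hW π hπ hπB hK₀c
    (fun U _ _ => ⟨interior A₀, isOpen_interior.mem_nhdsSet.2 (sdiff_subset.trans hK₀A),
      hW.mono _ _ interior_subset hWA₀⟩) t
  refine ⟨φ ⁻¹' P, hP.preimage hi.injOn, fun p hp hpB => ?_, fun U hUo hPU => ?_⟩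
  · have h1 : φ p ∈ P := hp
    rw [hφ.fix hpB] at h1
    exact hPB h1 hpB
  obtain ⟨A, hA, hWA⟩ := h (φ '' Uᶜ)ᶜ
    (hUo.isClosed_compl.isCompact.image hc).isClosed.isOpen_compl (by
      rintro _ hp ⟨a, ha, rfl⟩
      exact ha (hPU hp))
  refine hW.mono _ _ (fun a ha => ?_) (hW.rep A φ hφ hWA)
  refine subset_of_mem_nhdsSet hA ⟨?_, fun h' => h' ⟨a, ha, rfl⟩⟩
  by_cases h1 : φ a ∈ interior K₀
  · exact hKK (interior_subset h1)
  · obtain ⟨i, hi, hp⟩ := mem_iUnion₂.1 (ht ⟨mem_range_self a, h1⟩)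
    exact hcov i hi hp

/-- Pulling the holes back by an isotopy. -/
lemma pullF (hW : SysF J B₀ W) {P U : Set S}
    (h : Phi W P) {φ : S → S} (hφ : IsoF J (𝓝ˢ B₀) φ) (hU : IsOpen U) (hP : ∀ p, φ p ∈ P → p ∈ U) :
    W Uᶜ := by
  have := h (φ '' Uᶜ)ᶜ
    (hU.isClosed_compl.isCompact.image hφ.cont.1).isClosed.isOpen_compl (by
      rintro _ hp ⟨a, ha, rfl⟩
      exact ha (hP a hp))
  rw [compl_compl] at this
  exact hW.mono _ _ (subset_preimage_image φ _) (hW.rep _ φ hφ this)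

/-- A hole near the boundary can be removed. -/
lemma loc_bdryF (hW : SysF J B₀ W) {P : Set S} (hP : P.Finite) {q₀ : S}
    (hq : J.IsBoundaryPoint q₀) (hqB : q₀ ∉ B₀) :
    ∃ N ∈ 𝓝 q₀, ∀ q ∈ N, Phi W (insert q P) → Phi W P := by
  have hV : (P \ {q₀})ᶜ ∈ 𝓝 q₀ :=
    (hP.subset sdiff_subset).isClosed.isOpen_compl.mem_nhds (by simp)
  obtain ⟨V, hV', hF⟩ := away_pt hW.closed hqB
  obtain ⟨φ, hφ, hout, -, N, hN, hmiss⟩ := pushF hq (inter_mem hV hV')
    (hF.mono fun p hp hp' => hp hp'.2)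
  refine ⟨N, hN, fun q hqN h U hUo hPU => pullF hW h hφ hUo fun p hp => ?_⟩
  rcases hp with hp | hp
  · exact absurd (hp ▸ hqN) (hmiss p)
  · have h1 : φ p ≠ q₀ := fun h' => hmiss p (h' ▸ mem_of_mem_nhds hN)
    have h2 : φ (φ p) = φ p := hout _ fun h' => h'.1 ⟨hp, h1⟩
    rw [hφ.cont.2 h2] at hp
    exact hPU hp

/-- A hole can be moved locally. -/
lemma loc_moveF (hW : SysF J B₀ W) (hD : DiscStmt J S) {P : Set S} (hP : P.Finite)
    (q₀ : S) (hqB : q₀ ∉ B₀) :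
    ∃ N ∈ 𝓝 q₀, ∀ q ∈ N, ∀ q' ∈ N, Phi W (insert q P) → Phi W (insert q' P) := by
  rcases J.isInteriorPoint_or_isBoundaryPoint q₀ with hq | hq
  · obtain ⟨π, hπ, rfl, hπB⟩ := disc_in hD hq hW.closed.isOpen_compl hqB
    obtain ⟨δ, hδ, hb⟩ := disc_ball hπ (a := 0)
      (hP.subset (sdiff_subset (t := {π 0}))).isClosed.isOpen_compl (by simp)
    refine ⟨π '' ball 0 (δ / 2), (disc_open hπ _ isOpen_ball).mem_nhds
      ⟨0, mem_ball_self (half_pos hδ), rfl⟩, ?_⟩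
    rintro q hq _ ⟨a, ha, rfl⟩ h U hUo hPU
    obtain ⟨ε, hε, hεU⟩ := disc_ball hπ hUo (hPU (mem_insert _ _))
    obtain ⟨φ, hφ, hout, -, hpre⟩ := shrinkF hπ (r := δ / 2) (R := δ) (a := a)
      (half_lt_self hδ) hε (le_of_lt (by simpa using ha)) (away_disc hπ hπB _)
    refine pullF hW h hφ hUo fun p hp => ?_
    rcases hp with hp | hp
    · exact hεU (hpre p (hp ▸ image_mono ball_subset_closedBall hq))
    · by_cases h0 : φ p = π 0
      · exact hεU (hpre p ⟨0, mem_closedBall_self (half_pos hδ).le, h0.symm⟩)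
      · have h2 : φ (φ p) = φ p := hout _ fun h' => hb h' ⟨hp, h0⟩
        rw [hφ.cont.2 h2] at hp
        exact hPU (mem_insert_of_mem _ hp)
  · obtain ⟨N, hN, h⟩ := loc_bdryF hW hP hq hqB
    exact ⟨N, hN, fun q hq q' _ h' => (h q hq h').mono (subset_insert _ _)⟩

/-- A hole can be moved in its component of the complement of `B₀`. -/
lemma moveF (hW : SysF J B₀ W) (hD : DiscStmt J S) {P : Set S} (hP : P.Finite)
    {q q' : S} (hqB : q ∉ B₀) (hq : q' ∈ connectedComponentIn B₀ᶜ q) (h : Phi W (insert q P)) :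
    Phi W (insert q' P) := by
  refine isPreconnected_connectedComponentIn.induction₂'
    (fun a b => Phi W (insert a P) → Phi W (insert b P)) (fun z hz => ?_)
    (fun _ _ _ _ _ _ h1 h2 h3 => h2 (h1 h3)) (mem_connectedComponentIn hqB) hq h
  obtain ⟨N, hN, hm⟩ := loc_moveF hW hD hP z (connectedComponentIn_subset _ _ hz)
  filter_upwards [mem_nhdsWithin_of_mem_nhds hN] with w hw
  exact ⟨hm z (mem_of_mem_nhds hN) w hw, hm w hw z (mem_of_mem_nhds hN)⟩

/-- One hole can be removed. -/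
lemma removeF (hW : SysF J B₀ W) (hD : DiscStmt J S) {P : Set S} (hP : P.Finite)
    (hPB : P ⊆ B₀ᶜ) {q : S} (hqB : q ∉ B₀) (h : Phi W (insert q P)) : Phi W P := by
  by_cases h1 : ∀ y ∈ connectedComponentIn B₀ᶜ q, J.IsInteriorPoint y
  swap
  · push Not at h1
    obtain ⟨y, hy, hy'⟩ := h1
    obtain ⟨N, hN, hm⟩ := loc_bdryF hW hP
      ((J.isInteriorPoint_or_isBoundaryPoint y).resolve_left hy')
      (connectedComponentIn_subset _ _ hy)
    exact hm y (mem_of_mem_nhds hN) (moveF hW hD hP hqB hy h)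
  by_cases h2 : ∃ y ∈ P, y ∈ connectedComponentIn B₀ᶜ q
  · obtain ⟨y, hy, hy'⟩ := h2
    have := moveF hW hD hP hqB hy' h
    rwa [insert_eq_of_mem hy] at this
  push Not at h2
  obtain ⟨ψ, hψ, hr, b, hb, hA⟩ := hW.ann q hqB h1
  have hcl : ∀ y ∈ P, y ∉ closure (connectedComponentIn B₀ᶜ q) := fun y hy hy' => by
    have h3 : IsPreconnected (insert y (connectedComponentIn B₀ᶜ q)) :=
      isPreconnected_connectedComponentIn.subset_closure (subset_insert _ _)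
        (insert_subset hy' subset_closure)
    exact h2 y hy (h3.subset_connectedComponentIn
      (mem_insert_of_mem _ (mem_connectedComponentIn hqB))
      (insert_subset (hPB hy) (connectedComponentIn_subset _ _)) (mem_insert _ _))
  intro U hUo hPU
  have ho : IsOpen (ψ '' {z : Q | |z.1| < b}) :=
    hψ.1.isOpenMap _ (isOpen_lt (by fun_prop) continuous_const)
  have h3 := moveF hW hD hP hqB (hr (mem_range_self 0)) h
    (U \ closure (connectedComponentIn B₀ᶜ q) ∪ ψ '' {z : Q | |z.1| < b})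
    ((hUo.sdiff isClosed_closure).union ho) (by
      rintro y (rfl | hy)
      · exact Or.inr ⟨0, by simpa using hb, rfl⟩
      · exact Or.inl ⟨hPU hy, hcl y hy⟩)
  refine hW.mono _ _ (fun p hp => ?_) (hA _ h3 ?_)
  · by_cases hp' : p ∈ range ψ
    · exact Or.inr hp'
    · refine Or.inl ?_
      rintro (h' | h')
      · exact hp h'.1
      · exact hp' (image_subset_range _ _ h')
  · rintro z hz (h' | ⟨w, hw, hwz⟩)
    · exact h'.2 (subset_closure (hr (mem_range_self z)))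
    · obtain ⟨n, rfl⟩ := (hψ.2 w z).1 hwz
      simp only [Prod.fst_add, add_zero] at hz
      exact absurd hw (not_lt.2 hz)

theorem allF (hW : SysF J B₀ W) (hD : DiscStmt J S) : W univ := by
  obtain ⟨P, hP, hPB, h⟩ := exists_holesF hW hD
  have : Phi W (∅ : Set S) := by
    induction P, hP using Set.Finite.induction_on with
    | empty => exact h
    | insert _ hs ih =>
      exact ih ((subset_insert _ _).trans hPB)
        (removeF hW hD hs ((subset_insert _ _).trans hPB) (hPB (mem_insert _ _)) h)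
  simpa using this ∅ isOpen_empty subset_rfl

end Abstract

variable {E : Type*} [NormedAddCommGroup E] [NormedSpace ℝ E] [FiniteDimensional ℝ E]
  {M : Type*} [TopologicalSpace M] [ChartedSpace E M] [IsManifold 𝓘(ℝ, E) ∞ M]
  {E₂ H₂ : Type*} [NormedAddCommGroup E₂] [NormedSpace ℝ E₂] [FiniteDimensional ℝ E₂]
  [TopologicalSpace H₂] {J : ModelWithCorners ℝ E₂ H₂} {S : Type*} [TopologicalSpace S]
  [ChartedSpace H₂ S] [IsManifold J ∞ S]

theorem finalF [T2Space S] [CompactSpace S] {D : Distr E M} (hD : DiscStmt J S)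
    (hL : LineStmt J S D) {B : Set S} (hB : IsClosed B) (h1 : CircleF J S B D)
    (h2 : AnnF J S B D) {x : Data J E S M} (hx : x.Formal D) (hg : ∀ᶠ p in 𝓝ˢ B, MGood x p)
    (h3 : ∀ p, p ∉ B → (∀ y ∈ connectedComponentIn Bᶜ p, J.IsInteriorPoint y) →
      ∃ ψ : Q → S, Ann J ψ ∧ range ψ ⊆ connectedComponentIn Bᶜ p ∧ ZW D x ψ) :
    ∃ y, ReachF (𝓝ˢ B) D x y ∧ ∀ p, MGood y p := by
  have hW : SysF J B fun A : Set S => ∃ y, ReachF (𝓝ˢ B) D x y ∧ ∀ p ∈ A, MGood y p := by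
    refine ⟨hB, ?_, ?_, ?_, ?_, ?_⟩
    · rintro A A' hAB ⟨y, hy, h⟩
      exact ⟨y, hy, fun p hp => h p (hAB hp)⟩
    · obtain ⟨y, hy, h⟩ := reach_pull hx (isoF_id (𝓝ˢ B))
      exact ⟨_, hg, y, hy, fun p hp => h p hp⟩
    · rintro A φ hφ ⟨y, hy, h⟩
      obtain ⟨z, hz, h'⟩ := reach_pull hy.formal hφ
      exact ⟨z, hy.trans hz, fun p hp => h' p (h _ hp)⟩
    · rintro π hπ hπB C hCc A hA ⟨y, hy, h⟩
      obtain ⟨z, hz, h'⟩ := h1 y hy.formal _ (polarStmt π hπ 1 one_pos)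
        (by rintro _ ⟨q, rfl⟩; exact hπB (mem_range_self _))
        (hL.2.1 y hy.formal π hπ 1 one_pos) C hCc (mem_of_superset hA h)
      refine ⟨{p | MGood z p}, nhdsSet_mono (union_subset_union_right _ ?_) h',
        z, hy.trans hz, fun _ hp => hp⟩
      rintro _ ⟨w, hw, rfl⟩
      obtain ⟨t, rfl⟩ := Holes.sphere_pol hw
      exact ⟨t, rfl⟩
    · intro p hpB hp
      obtain ⟨ψ, hψ, h0, hz⟩ := h3 p hpB hp
      obtain ⟨b, hb, h2⟩ := h2
      refine ⟨ψ, hψ, h0, b / 2, half_pos hb, ?_⟩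
      rintro A ⟨y, hy, h⟩ hA
      obtain ⟨z, hz', h'⟩ := h2 y hy.formal ψ hψ (h0.trans (connectedComponentIn_subset _ _))
        (hL.2.2.2 x y hy.reach ψ hψ hz) (b / 2) (half_lt_self hb) fun q hq => h _ (hA q hq)
      exact ⟨z, hy.trans hz', fun p hp => h' p (hp.imp_left (h p))⟩
  obtain ⟨y, hy, h⟩ := allF hW hD
  exact ⟨y, hy, fun p => h p (mem_univ p)⟩

end

end Pool.Agent.Lib.MP_72f1d0_gt.Rel
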