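import Pool.Agent.Lib.MP_72f1d0_gt.PC.Push
import Pool.Agent.Lib.MP_72f1d0_gt.PC.Surf

/-!
Isotopies of the surface that are stationary along a filter.
-/

set_option linter.unusedSectionVars false

open scoped ContDiff Manifold Topology
open Set Filter

namespace Pool.Agent.Lib.MP_72f1d0_gt.Rel

open PC PC.Shrink

noncomputable section

variable {E₂ H₂ : Type*} [NormedAddCommGroup E₂] [NormedSpace ℝ E₂] [TopologicalSpace H₂]
  {J : ModelWithCorners ℝ E₂ H₂} {S : Type*} [TopologicalSpace S] [ChartedSpace H₂ S]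

variable (J) in
/-- `φ` is isotopic to the identity through injective immersions that fix the points of `F`. -/
def IsoF (F : Filter S) (φ : S → S) : Prop :=
  ∃ Φ : ℝ × S → S, ContMDiff (𝓘(ℝ, ℝ).prod J) J ∞ Φ ∧ (∀ p, Φ (0, p) = p) ∧
    (∀ p, Φ (1, p) = φ p) ∧ (∀ t, (Function.Injective fun p => Φ (t, p)) ∧
      ∀ p, Function.Injective (mfderiv J J (fun p => Φ (t, p)) p)) ∧
    ∀ᶠ p in F, ∀ t, Φ (t, p) = p

lemma IsoF.cont {F : Filter S} {φ : S → S} (h : IsoF J F φ) :
    Continuous φ ∧ Function.Injective φ := by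
  obtain ⟨Φ, h1, -, h3, h4, -⟩ := h
  obtain rfl : φ = fun p => Φ (1, p) := (funext h3).symm
  exact ⟨h1.continuous.comp (continuous_const.prodMk continuous_id), (h4 1).1⟩

lemma isoF_id (F : Filter S) : IsoF J F fun p : S => p := by
  refine ⟨Prod.snd, contMDiff_snd, fun _ => rfl, fun _ => rfl, fun t =>
    ⟨Function.injective_id, fun p => ?_⟩, Eventually.of_forall fun _ _ => rfl⟩
  have e : mfderiv J J (fun p : S => ((t, p) : ℝ × S).2) p = ContinuousLinearMap.id ℝ _ :=
    mfderiv_id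
  rw [e]
  exact Function.injective_id

lemma IsoF.comp {F : Filter S} {φ φ' : S → S} (h : IsoF J F φ) (h' : IsoF J F φ') :
    IsoF J F fun p => φ (φ' p) := by
  obtain ⟨Φ, h1, h2, h3, h4, h5⟩ := h
  obtain ⟨Φ', g1, g2, g3, g4, g5⟩ := h'
  refine ⟨fun z => Φ (z.1, Φ' z), h1.comp (contMDiff_fst.prodMk g1), fun p => ?_, fun p => ?_,
    fun t => ⟨(h4 t).1.comp (g4 t).1, fun p => ?_⟩, ?_⟩
  · simp only [g2, h2]
  · simp only [g3, h3]
  · have a1 : ContMDiff J J ∞ fun p => Φ (t, p) := h1.comp (contMDiff_const.prodMk contMDiff_id)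
    have a2 : ContMDiff J J ∞ fun p => Φ' (t, p) := g1.comp (contMDiff_const.prodMk contMDiff_id)
    have e := mfderiv_comp p (a1.mdifferentiableAt (by simp)) (a2.mdifferentiableAt (by simp))
    have e' : mfderiv J J (fun p => Φ (t, Φ' (t, p))) p = _ := e
    rw [e']
    exact ((h4 t).2 _).comp ((g4 t).2 p)
  · filter_upwards [h5, g5] with p a b t
    show Φ (t, Φ' (t, p)) = p
    rw [b t, a t]

section Chart

variable {X : Type*} [NormedAddCommGroup X] [NormedSpace ℝ X] {O : Set S} {T : Set X}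
  {σ : S → X} {π : X → S}

theorem chart_isoF [T2Space S] {F : Filter S} (h : Chart J O T σ π) {b : X → X} (hb : ContDiff ℝ ∞ b)
    (hL : ∀ y, ‖fderiv ℝ b y‖ ≤ 1 / 2) {K : Set X} (hK : IsCompact K) (hKT : K ⊆ T)
    (hbK : ∀ y ∈ T, y ∉ K → b y = 0)
    (hT : ∀ y ∈ T, ∀ t : ℝ, 0 ≤ t → t ≤ 1 → y + t • b y ∈ T)
    (hF : ∀ᶠ p in F, p ∉ π '' K) : IsoF J F (mv O σ π b 1) := by
  have t0 := Real.smoothTransition.nonneg
  have t1 := Real.smoothTransition.le_one
  have hcl : IsClosed (π '' K) :=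
    (hK.image_of_continuousOn (h.sπ.continuousOn.mono hKT)).isClosed
  have hout : ∀ p, p ∉ π '' K → ∀ t, mv O σ π b t p = p := fun p hp t =>
    h.mv_eq fun hO => hbK _ (h.mσ hO) fun hK' => hp ⟨_, hK', h.left p hO⟩
  have hsm : ContMDiff (𝓘(ℝ, ℝ).prod J) J ∞
      fun z : ℝ × S => mv O σ π b (Real.smoothTransition z.1) z.2 := by
    intro z
    by_cases hz : z.2 ∈ O
    · have hn : (univ ×ˢ O : Set (ℝ × S)) ∈ 𝓝 z :=
        (isOpen_univ.prod h.op).mem_nhds ⟨trivial, hz⟩
      have h1 : ContMDiffOn (𝓘(ℝ, ℝ).prod J) 𝓘(ℝ, X) ∞ (fun z : ℝ × S => σ z.2) (univ ×ˢ O) :=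
        h.sσ.comp contMDiffOn_snd fun w hw => hw.2
      have h2 : ContMDiffOn (𝓘(ℝ, ℝ).prod J) 𝓘(ℝ, ℝ) ∞
          (fun z : ℝ × S => Real.smoothTransition z.1) (univ ×ˢ O) :=
        ((Real.smoothTransition.contDiff (n := ⊤)).contMDiff.comp contMDiff_fst).contMDiffOn
      have h3 : ContMDiffOn (𝓘(ℝ, ℝ).prod J) 𝓘(ℝ, X) ∞
          (fun z : ℝ × S => σ z.2 + Real.smoothTransition z.1 • b (σ z.2)) (univ ×ˢ O) :=
        h1.add (h2.smul (hb.contMDiff.comp_contMDiffOn h1))
      have h4 := h.sπ.comp h3 fun w hw => hT _ (h.mσ hw.2) _ (t0 _) (t1 _)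
      refine (h4.contMDiffAt hn).congr_of_eventuallyEq ?_
      filter_upwards [hn] with w hw using mv_of_mem hw.2
    · have hz' : z.2 ∉ π '' K := fun ⟨y, hy, e⟩ => hz (e ▸ h.mπ (hKT hy))
      have hn : (univ ×ˢ (π '' K)ᶜ : Set (ℝ × S)) ∈ 𝓝 z :=
        (isOpen_univ.prod hcl.isOpen_compl).mem_nhds ⟨trivial, hz'⟩
      refine contMDiffAt_snd.congr_of_eventuallyEq ?_
      filter_upwards [hn] with w hw using hout _ hw.2 _
  refine ⟨_, hsm, fun p => ?_, fun p => ?_, fun l => ⟨?_, fun p => ?_⟩,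
    hF.mono fun p hp t => hout p hp _⟩
  · simp only [Real.smoothTransition.zero]
    by_cases hO : p ∈ O
    · rw [mv_of_mem hO, zero_smul, add_zero, h.left p hO]
    · exact mv_of_notMem hO
  · simp only [Real.smoothTransition.one]
  · intro p p' e
    have e' : mv O σ π b (Real.smoothTransition l) p = mv O σ π b (Real.smoothTransition l) p' := e
    have hm : ∀ x ∈ O, σ x + Real.smoothTransition l • b (σ x) ∈ T := fun x hx =>
      hT _ (h.mσ hx) _ (t0 _) (t1 _)
    by_cases hp : p ∈ O <;> by_cases hp' : p' ∈ O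
    · rw [mv_of_mem hp, mv_of_mem hp'] at e'
      have h1 := congrArg σ e'
      rw [h.right _ (hm p hp), h.right _ (hm p' hp')] at h1
      rw [← h.left p hp, ← h.left p' hp', inj_of_small hb hL (t0 l) (t1 l) h1]
    · rw [mv_of_mem hp, mv_of_notMem hp'] at e'
      exact absurd (e' ▸ h.mπ (hm p hp)) hp'
    · rw [mv_of_notMem hp, mv_of_mem hp'] at e'
      exact absurd (e'.symm ▸ h.mπ (hm p' hp')) hp
    · rwa [mv_of_notMem hp, mv_of_notMem hp'] at e'
  · set t := Real.smoothTransition l with ht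
    show Function.Injective (mfderiv J J (mv O σ π b t) p)
    by_cases hp : p ∈ O
    · have hn := h.op.mem_nhds hp
      have hm : ∀ x ∈ O, σ x + t • b (σ x) ∈ T := fun x hx => hT _ (h.mσ hx) _ (t0 _) (t1 _)
      have hq : mv O σ π b t p ∈ O := by rw [mv_of_mem hp]; exact h.mπ (hm p hp)
      have h0 : ContMDiff J J ∞ (mv O σ π b t) :=
        hsm.comp (contMDiff_const.prodMk contMDiff_id : ContMDiff J (𝓘(ℝ, ℝ).prod J) ∞
          fun x : S => (l, x))
      have h1 := (h0.mdifferentiableAt (x := p) (by simp)).hasMFDerivAt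
      have h2 := ((h.sσ.contMDiffAt (h.op.mem_nhds hq)).mdifferentiableAt (by simp)).hasMFDerivAt
      have h3 := h2.comp p h1
      have h4 := ((h.sσ.contMDiffAt hn).mdifferentiableAt (by simp)).hasMFDerivAt
      have h5 : HasFDerivAt (fun y => y + t • b y)
          (ContinuousLinearMap.id ℝ X + t • fderiv ℝ b (σ p)) (σ p) :=
        (hasFDerivAt_id _).add ((hb.differentiable (by simp) _).hasFDerivAt.const_smul t)
      have h6 := h5.hasMFDerivAt.comp p h4
      have h7 : σ ∘ mv O σ π b t =ᶠ[𝓝 p] (fun y => y + t • b y) ∘ σ := by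
        filter_upwards [hn] with x hx
        show σ (mv O σ π b t x) = _
        rw [mv_of_mem hx, h.right _ (hm x hx)]
        rfl
      have h8 := hasMFDerivAt_unique h3 (h6.congr_of_eventuallyEq h7)
      intro v w hvw
      have h9 := congrArg (mfderiv J 𝓘(ℝ, X) σ (mv O σ π b t p)) hvw
      have h10 : ∀ u, mfderiv J 𝓘(ℝ, X) σ (mv O σ π b t p) (mfderiv J J (mv O σ π b t) p u) =
          (ContinuousLinearMap.id ℝ X + t • fderiv ℝ b (σ p)) (mfderiv J 𝓘(ℝ, X) σ p u) :=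
        fun u => congrArg (fun L => L u) h8
      exact h.inj_mfderiv hp (inj_deriv (hL _) (t0 l) (t1 l)
        ((h10 v).symm.trans (h9.trans (h10 w))))
    · have hz' : p ∉ π '' K := fun ⟨y, hy, e⟩ => hp (e ▸ h.mπ (hKT hy))
      have h1 : mv O σ π b t =ᶠ[𝓝 p] id := by
        filter_upwards [hcl.isOpen_compl.mem_nhds hz'] with x hx using hout x hx t
      have h2 := ((hasMFDerivAt_id (I := J) p).congr_of_eventuallyEq h1).mfderiv
      intro v w hvw
      have h3 : ∀ u, mfderiv J J (mv O σ π b t) p u = u := fun u => congrArg (fun L => L u) h2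
      exact (h3 v).symm.trans (hvw.trans (h3 w))

end Chart

/-- One step of the expansion away from `a`. -/
lemma stepF [T2Space S] {F : Filter S} {π : ℂ → S} (h : Disc J π) {r R : ℝ} {a : ℂ} (hr : r < R)
    (ha : ‖a‖ ≤ r) (hF : ∀ᶠ p in F, p ∉ π '' Metric.closedBall 0 R) :
    ∃ (η : ℝ) (φ : S → S), 0 < η ∧ IsoF J F φ ∧ (∀ p, p ∉ π '' Metric.ball 0 R → φ p = p) ∧
      ∀ p y, ‖y‖ ≤ r → φ p = π y → p = π (a + (1 + η)⁻¹ • (y - a)) := by
  have hr0 : 0 ≤ r := (norm_nonneg _).trans ha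
  let β : ContDiffBump (0 : ℂ) := ⟨(2 * r + R) / 3, (r + 2 * R) / 3, by linarith, by linarith⟩
  have hv : ContDiff ℝ ∞ fun y : ℂ => β y • (y - a) := β.contDiff.smul (contDiff_id.sub contDiff_const)
  have hc : HasCompactSupport fun y : ℂ => β y • (y - a) := β.hasCompactSupport.smul_right
  obtain ⟨η, h0, -, hL⟩ := exists_small hv hc one_pos
  set b : ℂ → ℂ := fun y => η • (β y • (y - a)) with hb
  have hbs : ContDiff ℝ ∞ b := hv.const_smul η
  have hch := disc_chart h
  have hz : ∀ y, y ∉ Metric.closedBall (0 : ℂ) ((r + 2 * R) / 3) → b y = 0 := fun y hy => by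
    have : β y = 0 := β.zero_of_le_dist (le_of_lt (by simpa using hy))
    simp [hb, this]
  refine ⟨η, mv (range π) (Function.invFun π) π b 1, h0,
    chart_isoF hch hbs hL (isCompact_closedBall 0 ((r + 2 * R) / 3)) (subset_univ _)
      (fun y _ hy => hz y hy) (fun _ _ _ _ _ => trivial) (hF.mono fun p hp hp' =>
        hp (image_mono (Metric.closedBall_subset_closedBall (by linarith)) hp')),
    fun p hp => ?_, fun p y hy e => ?_⟩
  · refine hch.mv_eq fun hO => hz _ fun hm => hp ⟨_, ?_, hch.left p hO⟩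
    exact Metric.closedBall_subset_ball (by linarith) hm
  · by_cases hp : p ∈ range π
    · rw [mv_of_mem hp] at e
      have h1 := h.2 e
      have hη : (1 + η) ≠ 0 := by linarith
      have hc1 : 0 ≤ (1 + η)⁻¹ := by positivity
      have hc2 : (1 + η)⁻¹ ≤ 1 := inv_le_one_of_one_le₀ (by linarith)
      have h2 : a + (1 + η)⁻¹ • (y - a) ∈ Metric.closedBall (0 : ℂ) r :=
        (convex_closedBall 0 r).add_smul_sub_mem (by simpa using ha) (by simpa using hy) ⟨hc1, hc2⟩
      have h3 : β (a + (1 + η)⁻¹ • (y - a)) = 1 :=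
        β.one_of_mem_closedBall (Metric.closedBall_subset_closedBall (by
          show r ≤ (2 * r + R) / 3
          linarith) h2)
      have h4 : (a + (1 + η)⁻¹ • (y - a)) + (1 : ℝ) • b (a + (1 + η)⁻¹ • (y - a)) = y := by
        simp only [hb, h3, add_sub_cancel_left, smul_smul, one_mul, mul_one]
        rw [add_assoc, ← add_smul, show (1 + η)⁻¹ + η * (1 + η)⁻¹ = 1 by field_simp, one_smul]
        abel
      have h5 := inj_of_small hbs hL zero_le_one le_rfl (h1.trans h4.symm)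
      rw [← h5, hch.left p hp]
    · rw [mv_of_notMem hp] at e
      exact absurd ⟨y, e.symm⟩ hp

theorem shrinkF [T2Space S] {F : Filter S} {π : ℂ → S} (h : Disc J π) {r R ε : ℝ} {a : ℂ}
    (hr : r < R) (hε : 0 < ε) (ha : ‖a‖ ≤ r)
    (hF : ∀ᶠ p in F, p ∉ π '' Metric.closedBall 0 R) :
    ∃ φ : S → S, IsoF J F φ ∧ (∀ p, p ∉ π '' Metric.ball 0 R → φ p = p) ∧
      MapsTo φ (π '' Metric.ball 0 R) (π '' Metric.ball 0 R) ∧
      ∀ p, φ p ∈ π '' Metric.closedBall 0 r → p ∈ π '' Metric.ball a ε := by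
  obtain ⟨η, φ1, h0, h1, h2, h3⟩ := stepF h hr ha hF
  have hc1 : 0 ≤ (1 + η)⁻¹ := by positivity
  have hc2 : (1 + η)⁻¹ < 1 := inv_lt_one_of_one_lt₀ (by linarith)
  have key : ∀ n : ℕ, ∃ φ : S → S, IsoF J F φ ∧ (∀ p, p ∉ π '' Metric.ball 0 R → φ p = p) ∧
      ∀ p, φ p ∈ π '' Metric.closedBall 0 r →
        ∃ y, ‖y‖ ≤ r ∧ ‖y - a‖ ≤ (1 + η)⁻¹ ^ n * (2 * r) ∧ p = π y := by
    intro n
    induction n with
    | zero =>
      refine ⟨fun p => p, isoF_id F, fun _ _ => rfl, ?_⟩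
      rintro _ ⟨y, hy, rfl⟩
      have hy' : ‖y‖ ≤ r := by simpa using hy
      exact ⟨y, hy', by have := norm_sub_le y a; simp; linarith, rfl⟩
    | succ n ih =>
      obtain ⟨φ, g1, g2, g3⟩ := ih
      refine ⟨fun p => φ (φ1 p), g1.comp h1, fun p hp => ?_, fun p hp => ?_⟩
      · show φ (φ1 p) = p
        rw [h2 p hp, g2 p hp]
      · obtain ⟨y, y1, y2, y3⟩ := g3 _ hp
        refine ⟨_, ?_, ?_, h3 p y y1 y3⟩
        · have := (convex_closedBall (0 : ℂ) r).add_smul_sub_mem (x := a) (y := y)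
            (by simpa using ha) (by simpa using y1) ⟨hc1, hc2.le⟩
          simpa only [mem_closedBall_zero_iff] using this
        · rw [add_sub_cancel_left, norm_smul, Real.norm_of_nonneg hc1, pow_succ', mul_assoc]
          exact mul_le_mul_of_nonneg_left y2 hc1
  have hlim : Tendsto (fun n : ℕ => (1 + η)⁻¹ ^ n * (2 * r)) atTop (𝓝 (0 * (2 * r))) :=
    (tendsto_pow_atTop_nhds_zero_of_lt_one hc1 hc2).mul_const _
  rw [zero_mul] at hlim
  obtain ⟨n, hn⟩ := (hlim.eventually (gt_mem_nhds hε)).exists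
  obtain ⟨φ, g1, g2, g3⟩ := key n
  refine ⟨φ, g1, g2, fun p hp => ?_, fun p hp => ?_⟩
  · by_contra hne
    exact hne ((g1.cont.2 (g2 _ hne)).symm ▸ hp)
  · obtain ⟨y, -, y2, y3⟩ := g3 p hp
    exact ⟨y, by rw [Metric.mem_ball, dist_eq_norm]; exact y2.trans_lt hn, y3.symm⟩

theorem pushF [FiniteDimensional ℝ E₂] [IsManifold J ∞ S] [T2Space S] {F : Filter S} {q : S}
    (hq : J.IsBoundaryPoint q) {V : Set S} (hV : V ∈ 𝓝 q) (hF : ∀ᶠ p in F, p ∉ V) :
    ∃ φ : S → S, IsoF J F φ ∧ (∀ p, p ∉ V → φ p = p) ∧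
      (∀ p, φ p = p ∨ J.IsInteriorPoint (φ p)) ∧ ∃ N ∈ 𝓝 q, ∀ p, φ p ∉ N := by
  have hch := Push.ext_chart (J := J) q
  set σ : S → E₂ := ⇑(extChartAt J q) with hσ
  set π : E₂ → S := ⇑(extChartAt J q).symm with hπ
  set O := (extChartAt J q).source with hO
  set T := (extChartAt J q).target with hT
  have hTC : T ⊆ range J := extChartAt_target_subset_range q
  have hcv : Convex ℝ (range J) := J.convex_range
  have hx0 : σ q ∉ interior (range J) := hq.2
  obtain ⟨c, hc⟩ := J.nonempty_interior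
  have n1 : T ∩ π ⁻¹' V ∈ 𝓝[range J] σ q :=
    inter_mem (extChartAt_target_mem_nhdsWithin q)
      (mem_nhdsWithin_of_mem_nhds (extChartAt_preimage_mem_nhds hV))
  obtain ⟨ρ1, r1, hρ1⟩ := Metric.mem_nhdsWithin_iff.1 n1
  obtain ⟨ρ2, r2, hρ2⟩ := Metric.isOpen_iff.1 isOpen_interior c hc
  obtain ⟨ρ, r0, hA, hB⟩ : ∃ ρ : ℝ, 0 < ρ ∧ Metric.ball (σ q) ρ ∩ range J ⊆ T ∩ π ⁻¹' V ∧
      Metric.ball c ρ ⊆ interior (range J) :=
    ⟨min ρ1 ρ2, lt_min r1 r2,
      (inter_subset_inter_left _ (Metric.ball_subset_ball (min_le_left _ _))).trans hρ1,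
      (Metric.ball_subset_ball (min_le_right _ _)).trans hρ2⟩
  set e := c - σ q with he
  let β : ContDiffBump (σ q) := ⟨ρ / 4, ρ / 2, by linarith, by linarith⟩
  have hv : ContDiff ℝ ∞ fun y : E₂ => β y • e := β.contDiff.smul contDiff_const
  have hcs : HasCompactSupport fun y : E₂ => β y • e := β.hasCompactSupport.smul_right
  have e0 := norm_nonneg e
  obtain ⟨η, h0, h1, hL⟩ := exists_small hv hcs
    (η0 := min 1 (ρ / 8 / (‖e‖ + 1))) (lt_min one_pos (by positivity))
  have hη1 : η ≤ 1 := h1.trans (min_le_left _ _)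
  have hη2 : η * ‖e‖ ≤ ρ / 8 := by
    have h2 : η * (‖e‖ + 1) ≤ ρ / 8 := (le_div_iff₀ (by positivity)).1 (h1.trans (min_le_right _ _))
    nlinarith
  set b : E₂ → E₂ := fun y => η • (β y • e) with hb
  have hbs : ContDiff ℝ ∞ b := hv.const_smul η
  have hz : ∀ y, y ∉ Metric.ball (σ q) (ρ / 2) → β y = 0 := fun y hy =>
    β.zero_of_le_dist (by simpa using hy)
  -- the basic displacement
  have hmove : ∀ y ∈ T, ∀ t : ℝ, 0 ≤ t → t ≤ 1 → t • b y = 0 ∨
      y + t • b y ∈ Metric.ball (σ q) ρ ∩ interior (range J) := by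
    intro y hy t t0 t1
    have hs : t • b y = (t * η * β y) • e := by simp only [hb, smul_smul, mul_assoc]
    have b0 : 0 ≤ β y := β.nonneg
    have b1 : β y ≤ 1 := β.le_one
    have s0 : 0 ≤ t * η * β y := by positivity
    have s1 : t * η * β y ≤ η := by
      have h3 : t * β y ≤ 1 := mul_le_one₀ t1 b0 b1
      nlinarith
    rcases s0.eq_or_lt with h2 | h2
    · left; rw [hs, ← h2, zero_smul]
    · right
      have hyb : y ∈ Metric.ball (σ q) (ρ / 2) := by
        by_contra h3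
        rw [hz y h3] at h2
        simp at h2
      rw [Metric.mem_ball, dist_eq_norm] at hyb
      rw [hs]
      refine ⟨?_, hcv.add_smul_mem_interior (hTC hy) (hB ?_) ⟨h2, s1.trans hη1⟩⟩
      · rw [Metric.mem_ball, dist_eq_norm, add_sub_right_comm]
        have h3 := norm_add_le (y - σ q) ((t * η * β y) • e)
        rw [norm_smul, Real.norm_of_nonneg s0] at h3
        have h4 := mul_le_mul_of_nonneg_right s1 e0
        linarith
      · rw [Metric.mem_ball, dist_eq_norm, show y + e - c = y - σ q by rw [he]; abel]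
        linarith
  have hTT : ∀ y ∈ T, ∀ t : ℝ, 0 ≤ t → t ≤ 1 → y + t • b y ∈ T := fun y hy t t0 t1 => by
    rcases hmove y hy t t0 t1 with h2 | h2
    · rwa [h2, add_zero]
    · exact (hA ⟨h2.1, interior_subset h2.2⟩).1
  have hsub : Metric.closedBall (σ q) (ρ / 2) ∩ range J ⊆ T ∩ π ⁻¹' V :=
    (inter_subset_inter_left _ (Metric.closedBall_subset_ball (by linarith))).trans hA
  have hbK : ∀ y ∈ T, y ∉ Metric.closedBall (σ q) (ρ / 2) ∩ range J → b y = 0 := fun y hy hK => by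
    have : β y = 0 := hz y fun h2 => hK ⟨Metric.ball_subset_closedBall h2, hTC hy⟩
    simp [hb, this]
  have hcase : ∀ p, mv O σ π b 1 p = p ∨ (p ∈ O ∧
      σ p + (1 : ℝ) • b (σ p) ∈ Metric.ball (σ q) ρ ∩ interior (range J)) := fun p => by
    by_cases hp : p ∈ O
    · rcases hmove _ (hch.mσ hp) 1 zero_le_one le_rfl with h2 | h2
      · left; rw [mv_of_mem hp, h2, add_zero, hch.left p hp]
      · exact Or.inr ⟨hp, h2⟩
    · exact Or.inl (mv_of_notMem hp)
  refine ⟨mv O σ π b 1, chart_isoF hch hbs hL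
    ((isCompact_closedBall (σ q) (ρ / 2)).inter_right J.isClosed_range)
    (hsub.trans inter_subset_left) hbK hTT (hF.mono fun p hp hp' => hp (by
      obtain ⟨y, hy, rfl⟩ := hp'
      exact (hsub hy).2)), fun p hp => ?_, fun p => ?_, ?_⟩
  · refine hch.mv_eq fun hpO => hbK _ (hch.mσ hpO) fun hK => hp ?_
    have h2 : π (σ p) ∈ V := (hsub hK).2
    rwa [hch.left p hpO] at h2
  · rcases hcase p with h2 | ⟨h2, h3⟩
    · exact Or.inl h2
    · right
      have h4 := hTT _ (hch.mσ h2) 1 zero_le_one le_rfl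
      rw [mv_of_mem h2]
      refine Push.interior_of (q := q) (hch.mπ h4) ?_
      show σ (π _) ∈ interior T
      rw [hch.right _ h4]
      refine mem_interior.2 ⟨_, ?_, Metric.isOpen_ball.inter isOpen_interior, h3⟩
      exact fun y hy => (hA ⟨hy.1, interior_subset hy.2⟩).1
  · have hout : σ q - η • e ∉ range J := fun hm => by
      have h2 := hcv.add_smul_sub_mem_interior hm hc (t := η / (1 + η))
        ⟨by positivity, (div_le_one (by linarith)).2 (by linarith)⟩
      refine hx0 ?_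
      convert h2 using 1
      have h3 : c - (σ q - η • e) = (1 + η) • e := by rw [add_smul, one_smul, he]; abel
      rw [h3, smul_smul, div_mul_cancel₀ _ (by linarith)]
      abel
    obtain ⟨δ1, d1, hδ1⟩ := Metric.isOpen_iff.1 J.isClosed_range.isOpen_compl _ hout
    refine ⟨O ∩ σ ⁻¹' Metric.ball (σ q) (min δ1 (ρ / 8)), inter_mem (extChartAt_source_mem_nhds q)
      ((continuousAt_extChartAt q).preimage_mem_nhds
        (Metric.ball_mem_nhds _ (lt_min d1 (by linarith)))), fun p hp => ?_⟩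
    have hpO : p ∈ O := by
      by_contra h2
      rw [mv_of_notMem h2] at hp
      exact h2 hp.1
    have h4 := hTT _ (hch.mσ hpO) 1 zero_le_one le_rfl
    have h5 : σ (mv O σ π b 1 p) ∈ Metric.ball (σ q) (min δ1 (ρ / 8)) := hp.2
    rw [mv_of_mem hpO, hch.right _ h4] at h5
    set z := σ p + (1 : ℝ) • b (σ p) with hzd
    rw [Metric.mem_ball, dist_eq_norm, lt_min_iff] at h5
    have h6 : β (z - η • e) = 1 := β.one_of_mem_closedBall (by
      show _ ∈ Metric.closedBall (σ q) (ρ / 4)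
      rw [Metric.mem_closedBall, dist_eq_norm, sub_right_comm]
      have h7 := norm_sub_le (z - σ q) (η • e)
      rw [norm_smul, Real.norm_of_nonneg h0.le] at h7
      linarith [h5.2])
    have h7 : (z - η • e) + (1 : ℝ) • b (z - η • e) = z := by simp [hb, h6]
    have h8 : σ p = z - η • e := inj_of_small hbs hL zero_le_one le_rfl (hzd.symm.trans h7.symm)
    refine hδ1 (show z - η • e ∈ _ from ?_) (h8 ▸ hTC (hch.mσ hpO))
    rw [Metric.mem_ball, dist_eq_norm, sub_sub_sub_cancel_right]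
    exact h5.1

/-- Discs inside a given open set. -/
theorem disc_in [FiniteDimensional ℝ E₂] [IsManifold J ∞ S] (hD : DiscStmt J S) {p : S}
    (hp : J.IsInteriorPoint p) {V : Set S} (hV : IsOpen V) (hpV : p ∈ V) :
    ∃ π : ℂ → S, Disc J π ∧ π 0 = p ∧ range π ⊆ V := by
  obtain ⟨π, hπ, rfl⟩ := (hD p hp).1
  obtain ⟨r, hr, hb⟩ := Metric.isOpen_iff.1 (hV.preimage hπ.1.contMDiff.continuous) 0 hpV
  let u : OpenPartialHomeomorph ℂ ℂ := OpenPartialHomeomorph.univBall 0 r
  have hs : ∀ z, z ∈ u.source := fun z => by simp [u]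
  have ht : u.target = Metric.ball 0 r := OpenPartialHomeomorph.univBall_target _ hr
  refine ⟨fun z => π (u z), ⟨fun z => ?_, fun z w e => u.injOn (hs z) (hs w) (hπ.2 e)⟩, ?_, ?_⟩
  · have h1 : IsLocalDiffeomorphAt 𝓘(ℝ, ℂ) 𝓘(ℝ, ℂ) ∞ u z :=
      Surf.ld_of_oph u OpenPartialHomeomorph.contDiff_univBall.contDiffOn
        (ht ▸ OpenPartialHomeomorph.contDiffOn_univBall_symm) (hs z)
    exact h1.comp _ _ (hπ.1 _)
  · simp only [u, OpenPartialHomeomorph.univBall_apply_zero]
  · rintro _ ⟨z, rfl⟩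
    exact hb (ht ▸ u.map_source (hs z))

end

end Pool.Agent.Lib.MP_72f1d0_gt.Rel
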