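import Pool.Agent.Lib.MP_72f1d0_gt.Rel.Iso
import Pool.Agent.Lib.MP_72f1d0_gt.PC.Reach
import Pool.Agent.Lib.MP_72f1d0_gt.PC.Transfer

/-!
Paths of formal embeddings that are stationary along a filter.
-/

set_option linter.unusedSectionVars false

open scoped ContDiff Manifold Topology
open Set Filter

namespace Pool.Agent.Lib.MP_72f1d0_gt.Rel

open PC PC.Reach PC.Transfer
open Eq.Stmt (Distr Data IsPath derived diff)
open Eq.Man (dp Fv dv md vv)

noncomputable section

variable {E : Type*} [NormedAddCommGroup E] [NormedSpace ℝ E] [FiniteDimensional ℝ E]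
  {M : Type*} [TopologicalSpace M] [ChartedSpace E M] [IsManifold 𝓘(ℝ, E) ∞ M]
  {E₂ H₂ : Type*} [NormedAddCommGroup E₂] [NormedSpace ℝ E₂] [FiniteDimensional ℝ E₂]
  [TopologicalSpace H₂] {J : ModelWithCorners ℝ E₂ H₂} {S : Type*} [TopologicalSpace S]
  [ChartedSpace H₂ S] [IsManifold J ∞ S]

/-- A path of formal embeddings that does not move the points of `F` and keeps them genuine. -/
def ReachF (F : Filter S) (D : Distr E M) (x y : Data J E S M) : Prop :=
  ∃ γ : UI → Data J E S M, IsPath γ ∧ (∀ l, (γ l).Formal D) ∧ γ 0 = x ∧ γ 1 = y ∧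
    ∀ᶠ p in F, ∀ l, (γ l).f p = x.f p ∧ (MGood x p → MGood (γ l) p)

lemma ReachF.reach {F : Filter S} {D : Distr E M} {x y : Data J E S M} (h : ReachF F D x y) :
    MReach D x y := by
  obtain ⟨γ, h1, h2, h3, h4, -⟩ := h
  exact ⟨γ, h1, h2, h3, h4⟩

lemma ReachF.formal {F : Filter S} {D : Distr E M} {x y : Data J E S M} (h : ReachF F D x y) :
    y.Formal D := by
  obtain ⟨γ, -, h2, -, rfl, -⟩ := h
  exact h2 1

lemma ReachF.mono {F F' : Filter S} (hF : F ≤ F') {D : Distr E M} {x y : Data J E S M}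
    (h : ReachF F' D x y) : ReachF F D x y := by
  obtain ⟨γ, h1, h2, h3, h4, h5⟩ := h
  exact ⟨γ, h1, h2, h3, h4, hF h5⟩

lemma ReachF.trans {F : Filter S} {D : Distr E M} {x y z : Data J E S M} (h : ReachF F D x y)
    (h' : ReachF F D y z) : ReachF F D x z := by
  obtain ⟨γ, ⟨⟨k, hk, ek⟩, cγ⟩, fγ, γ0, γ1, sγ⟩ := h
  obtain ⟨δ, ⟨⟨m, hm, em⟩, cδ⟩, fδ, δ0, δ1, sδ⟩ := h'
  have hj : ∀ p, k (1, p) = m (0, p) := fun p =>
    (ek 1 p).symm.trans ((congrArg (fun A : Data J E S M => A.f p) (γ1.trans δ0.symm)).trans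
      (em 0 p))
  have ht : ∀ a : ℝ, ContMDiff (𝓘(ℝ, ℝ).prod J) (𝓘(ℝ, ℝ).prod J) ∞
      fun w : ℝ × S => (Real.smoothTransition (3 * w.1 - a), w.2) := fun a =>
    (((Real.smoothTransition.contDiff (n := ⊤)).comp
      ((contDiff_const.mul contDiff_id).sub contDiff_const)).contMDiff.comp
        contMDiff_fst).prodMk contMDiff_snd
  refine ⟨fun l => if (l : ℝ) ≤ 1 / 2 then γ (st (3 * l - 0)) else δ (st (3 * l - 2)),
    ⟨⟨fun w => if w.1 ≤ 1 / 2 then k (Real.smoothTransition (3 * w.1 - 0), w.2)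
      else m (Real.smoothTransition (3 * w.1 - 2), w.2), fun w => ?_, fun l p => ?_⟩, ?_⟩,
    fun l => ?_, ?_, ?_, ?_⟩
  · by_cases hw : w.1 < 2 / 3
    · refine ((hk.comp (ht 0)) w).congr_of_eventuallyEq ?_
      filter_upwards [(isOpen_lt continuous_fst continuous_const).mem_nhds hw] with v hv
      split_ifs with h1
      · rfl
      · have h2 : v.1 < 2 / 3 := hv
        rw [Function.comp_apply, Real.smoothTransition.zero_of_nonpos (by linarith),
          Real.smoothTransition.one_of_one_le (by linarith), hj]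
    · refine ((hm.comp (ht 2)) w).congr_of_eventuallyEq ?_
      have hw' : 1 / 2 < w.1 := by linarith
      filter_upwards [(isOpen_lt continuous_const continuous_fst).mem_nhds hw'] with v hv
      exact if_neg (not_le.2 hv)
  · dsimp only
    split_ifs
    · exact ek _ p
    · exact em _ p
  · have hc : ∀ a : ℝ, Continuous fun w : UI × UI × TangentBundle J S =>
        (st (3 * w.1 - a), w.2) := fun a =>
      (st_cont.comp (by fun_prop)).prodMk continuous_snd
    have := Continuous.if_le (f := fun w : UI × UI × TangentBundle J S => (w.1 : ℝ))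
      (g := fun _ => (1 / 2 : ℝ)) (cγ.comp (hc 0)) (cδ.comp (hc 2)) (by fun_prop) continuous_const
      (fun w hw => by
        simp only [Function.comp_apply]
        rw [hw, st_one (by norm_num), st_zero (by norm_num), γ1, δ0])
    refine this.congr fun w => ?_
    dsimp only
    split_ifs <;> rfl
  · dsimp only
    split_ifs
    · exact fγ _
    · exact fδ _
  · dsimp only
    rw [if_pos (by norm_num), st_zero (by norm_num), γ0]
  · dsimp only
    rw [if_neg (by norm_num), st_one (by norm_num), δ1]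
  · filter_upwards [sγ, sδ] with p a b l
    have a1 := a 1
    rw [γ1] at a1
    split_ifs
    · exact a _
    · exact ⟨(b _).1.trans a1.1, fun hg => (b _).2 (a1.2 hg)⟩

theorem reach_pull {F : Filter S} {D : Distr E M} {x : Data J E S M} {φ : S → S}
    (hx : x.Formal D) (hφ : IsoF J F φ) :
    ∃ y, ReachF F D x y ∧ ∀ p, MGood x (φ p) → MGood y p := by
  obtain ⟨Φ, h1, h2, h3, h4, h5⟩ := hφ
  obtain rfl : φ = fun p => Φ (1, p) := (funext h3).symm
  have a : ∀ t, ContMDiff J J ∞ fun p => Φ (t, p) := fun t =>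
    h1.comp (contMDiff_const.prodMk contMDiff_id)
  have key : ∀ (t : ℝ) p, MGood x (Φ (t, p)) → MGood (Reach.pull x fun p => Φ (t, p)) p :=
    fun t p hp s => by
      rw [Reach.diff_pull hx.1.1 (a t), ← hp s]
      rfl
  refine ⟨Reach.pull x fun p => Φ (1, p), ⟨fun l => Reach.pull x fun p => Φ (l, p),
    ⟨⟨fun w => x.f (Φ w), hx.1.1.comp h1, fun _ _ => rfl⟩, ?_⟩,
    fun l => Reach.formal_pull hx (a l) (h4 l).1 (h4 l).2, ?_, rfl, ?_⟩, key 1⟩
  · exact hx.2.1.comp (continuous_snd.fst.prodMk ((Reach.cont_tangent h1).comp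
      ((continuous_subtype_val.comp continuous_fst).prodMk continuous_snd.snd)))
  · exact (congrArg (Reach.pull x) (funext h2)).trans (Reach.pull_id x)
  · filter_upwards [h5] with p hp l
    refine ⟨congrArg x.f (hp l), fun hg => key l p ?_⟩
    rw [hp l]
    exact hg

theorem transferF [T2Space S] {D : Distr E M} {x : Data J E S M} {χ : Q → S} {R : Set Q} {c : Ctx}
    {Θ : G → M} {U : Set G} {x' : St c ∅} (hx : x.Formal D) (hm : Mod D x χ R c Θ U x')
    (K : Set Q) (y' : St c ∅) (hK : IsClosed K) (hP : PerSet K) (hKR : K ⊆ R)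
    (hRR : RR K U x' y') :
    ∃ y, ReachF (𝓟 (χ '' K)ᶜ) D x y ∧ (∀ q ∈ R, Good y' q → MGood y (χ q)) ∧
      ∀ p, p ∉ χ '' K → MGood x p → MGood y p := by
  classical
  obtain ⟨z, φ, hz, cz, z0, z1, cφ, φI, φ0, φe, zout, zin⟩ := hRR
  have hKc : IsClosed (χ '' K) :=
    (image_compact hm.χsmooth.continuous hm.χper hK hP).isClosed
  have hsec := fun q (hq : q ∈ R) =>
    exists_section hm.χsmooth (hm.χloc q hq) (hm.Ropen.mem_nhds hq)
  have di := fun q (hq : q ∈ R) => dp_inv_at (hm.χloc q hq)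
  have hκ : ∀ p : S, ∃ q : Q, p ∈ χ '' R → q ∈ R ∧ χ q = p := fun p => by
    by_cases hp : p ∈ χ '' R
    · obtain ⟨q, h1, h2⟩ := hp
      exact ⟨q, fun _ => ⟨h1, h2⟩⟩
    · exact ⟨0, fun h => absurd h hp⟩
  choose κ hκ using hκ
  let ph : ℝ → ℝ → UI := fun l s => projIcc 0 1 zero_le_one (φ (l, s))
  have eph : ∀ (l : ℝ) (s : UI), (ph l s : ℝ) = φ (l, s) := fun l s => by
    simp only [ph]
    rw [projIcc_of_mem zero_le_one (φI l s s.2.1 s.2.2)]
  let h : ℝ × S → M := fun w => if w.2 ∈ χ '' R then Θ ((z w.1).f (κ w.2)) else x.f w.2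
  let B : ℝ → ℝ → Q → (Q →L[ℝ] E) := fun l s q =>
    (vv E c Θ ((z l).f q)).comp (Manifold.apL ((z l).γ (s, q)))
  let F : UI → UI → S → (E₂ →L[ℝ] E) := fun l s p =>
    if p ∈ χ '' R then (B l s (κ p)).comp (dp J χ (κ p)).inverse else Fv x (ph l s) p
  have zeq : ∀ l q m, (z l).f (q + lat m) = (z l).f q + i0 (lat m) := fun l q m => by
    rw [(z l).emb.equi, hm.ci]
  have eh : ∀ l q, q ∈ R → h (l, χ q) = Θ ((z l).f q) := fun l q hq => by
    have hp : χ q ∈ χ '' R := ⟨q, hq, rfl⟩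
    obtain ⟨m, e⟩ := hm.χinj _ (hκ _ hp).1 q hq (hκ _ hp).2
    simp only [h, if_pos hp]
    conv_rhs => rw [e, zeq, hm.per]
  have eF : ∀ (l s : UI) q, q ∈ R → (F l s (χ q)).comp (dp J χ q) = B l s q := fun l s q hq => by
    have hp : χ q ∈ χ '' R := ⟨q, hq, rfl⟩
    obtain ⟨m, e⟩ := hm.χinj _ (hκ _ hp).1 q hq (hκ _ hp).2
    have hq' := (hκ _ hp).1
    simp only [F, if_pos hp]
    generalize κ (χ q) = q' at e hq'
    subst e
    refine ContinuousLinearMap.ext fun v => ?_
    rw [ContinuousLinearMap.comp_apply, ContinuousLinearMap.comp_apply,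
      dp_per hm.χsmooth hm.χper, (di q' hq').inverse_apply_self]
    simp only [B]
    have e2 : (z l).γ (s, q' + lat m) = (z l).γ (s, q') := (z l).fam.per s q' m
    rw [zeq, vv_per hm, e2]
  have oh : ∀ l p, p ∉ χ '' K → h (l, p) = x.f p := fun l p hp => by
    by_cases hp' : p ∈ χ '' R
    · obtain ⟨q, hq, rfl⟩ := hp'
      rw [eh l q hq, (zout l q fun hq' => hp ⟨q, hq', rfl⟩).1, hm.base, (hm.zero q hq).2]
    · simp only [h, if_neg hp']
  have oF : ∀ (l s : UI) p, p ∉ χ '' K → F l s p = Fv x (ph l s) p := fun l s p hp => by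
    by_cases hp' : p ∈ χ '' R
    · obtain ⟨q, hq, rfl⟩ := hp'
      have h1 := zout l q fun hq' => hp ⟨q, hq', rfl⟩
      refine cancel (di q hq) ?_
      rw [eF l s q hq, ← form' hm hq, eph]
      simp only [B]
      rw [h1.1, h1.2 s s.2.1 s.2.2, hm.base]
    · simp only [F, if_neg hp']
  have alt : ∀ p, (∃ q ∈ R, χ q = p) ∨ p ∉ χ '' K := fun p => by
    by_cases hp : p ∈ χ '' K
    · exact Or.inl (image_mono hKR hp)
    · exact Or.inr hp
  have hH : ContMDiff 𝓘(ℝ, ℝ × Q) 𝓘(ℝ, E) ∞ fun w : ℝ × Q => Θ ((z w.1).f w.2) :=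
    hm.smooth.comp hz.contMDiff
  have hh : ContMDiff (𝓘(ℝ, ℝ).prod J) 𝓘(ℝ, E) ∞ h := fun w => by
    rcases alt w.2 with ⟨q, hq, e⟩ | hp
    · obtain ⟨σ, -, h1, h2, -⟩ := hsec q hq
      rw [e] at h1 h2
      refine ((hH _).comp w (contMDiffAt_fst.prodMk_space
        (h1.comp w contMDiffAt_snd))).congr_of_eventuallyEq ?_
      filter_upwards [continuous_snd.continuousAt.eventually h2] with y hy
      have e2 := eh y.1 _ hy.1
      rw [hy.2] at e2
      exact e2
    · refine ((hx.1.1 _).comp w contMDiffAt_snd).congr_of_eventuallyEq ?_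
      filter_upwards [continuous_snd.continuousAt.eventually (hKc.isOpen_compl.mem_nhds hp)]
        with y hy
      exact oh y.1 y.2 hy
  have cH : Continuous fun w : UI × UI × Q × Q => (z w.1).f w.2.2.1 :=
    hz.continuous.comp ((continuous_subtype_val.comp continuous_fst).prodMk
      continuous_snd.snd.fst)
  have cK : Continuous fun w : UI × UI × Q × Q => (z w.1).γ (w.2.1, w.2.2.1) :=
    cz.comp ((continuous_subtype_val.comp continuous_fst).prodMk
      ((continuous_subtype_val.comp continuous_snd.fst).prodMk continuous_snd.snd.fst))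
  have cT : Continuous fun w : UI × UI × Q × Q => (⟨Θ ((z w.1).f w.2.2.1),
      B w.1 w.2.1 w.2.2.1 w.2.2.2⟩ : TangentBundle 𝓘(ℝ, E) M) :=
    Eq.Man.tm_cont hm.smooth cH ((c.e_smooth.continuous.comp cH).clm_apply
      ((continuous_snd.snd.snd.fst.smul cK.fst).add (continuous_snd.snd.snd.snd.smul cK.snd)))
  have cph : Continuous fun w : UI × UI × TangentBundle J S => ph w.1 w.2.1 :=
    continuous_projIcc.comp (cφ.comp ((continuous_subtype_val.comp continuous_fst).prodMk
      (continuous_subtype_val.comp continuous_snd.fst)))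
  have hc : Continuous fun w : UI × UI × TangentBundle J S =>
      (⟨h (w.1, w.2.2.1), F w.1 w.2.1 w.2.2.1 w.2.2.2⟩ : TangentBundle 𝓘(ℝ, E) M) :=
    continuous_iff_continuousAt.mpr fun w => by
      have hp : Continuous fun z : TangentBundle J S => z.1 := FiberBundle.continuous_proj _ _
      have c0 : ContinuousAt (fun z : UI × UI × TangentBundle J S => z.2.2) w :=
        continuous_snd.snd.continuousAt
      rcases alt w.2.2.1 with ⟨q, hq, e⟩ | hw
      · obtain ⟨σ, τ, h1, -, h2⟩ := hsec q hq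
        obtain ⟨h3, h4⟩ := h2 w.2.2 e.symm
        rw [e] at h1
        refine (cT.continuousAt.comp (continuousAt_fst.prodMk
          (continuousAt_snd.fst.prodMk (((h1.continuousAt.comp hp.continuousAt).comp
            (f := fun z : UI × UI × TangentBundle J S => z.2.2) c0).prodMk
            (h3.comp (f := fun z : UI × UI × TangentBundle J S => z.2.2) c0))))).congr ?_
        filter_upwards [c0.eventually h4] with y hy
        simp only [Function.comp_apply]
        rw [← eh _ _ hy.1, ← eF _ _ _ hy.1, ContinuousLinearMap.comp_apply, hy.2.2, hy.2.1]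
      · refine (hx.2.1.comp (cph.prodMk continuous_snd.snd)).continuousAt.congr ?_
        filter_upwards [(hp.continuousAt.comp c0).eventually (hKc.isOpen_compl.mem_nhds hw)]
          with y hy
        have hy' : y.2.2.1 ∉ χ '' K := hy
        rw [oh _ _ hy', oF _ _ _ hy']
        rfl
  have sm : ∀ l : ℝ, ContMDiff J 𝓘(ℝ, E) ∞ fun p => h (l, p) := fun l =>
    hh.comp (contMDiff_const.prodMk contMDiff_id)
  have Fi : ∀ l s p, Function.Injective (F l s p) := fun l s p => by
    by_cases hp : p ∈ χ '' R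
    · simp only [F, if_pos hp]
      exact ((vv_inv hm _).injective.comp ((Manifold.inj_iff _).mp
        ((z l).fam.inj s _ s.2.1 s.2.2))).comp (di _ (hκ p hp).1).inverse.injective
    · simp only [F, if_neg hp]
      exact hx.2.2.1 _ _
  have ph0 : ∀ l : ℝ, ph l (0 : UI) = 0 := fun l => Subtype.ext (by rw [eph]; exact (φe l).1)
  have ph1 : ∀ l : ℝ, ph l (1 : UI) = 1 := fun l => Subtype.ext (by rw [eph]; exact (φe l).2)
  have F0 : ∀ (l : UI) p, F l 0 p = dv E J (fun p => h (l, p)) p := fun l p => by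
    rcases alt p with ⟨q, hq, rfl⟩ | hp
    · refine cancel (di q hq) ?_
      rw [eF l 0 q hq, ← Eq.Man.dv_comp (sm l) hm.χsmooth]
      have e : (fun q => h (l, χ q)) =ᶠ[𝓝 q] fun q => Θ ((z l).f q) :=
        eventuallyEq_of_mem (hm.Ropen.mem_nhds hq) fun q' hq' => eh l q' hq'
      have e' : md E (fun q => h (l, χ q)) q = md E (fun q => Θ ((z l).f q)) q := e.mfderiv_eq
      rw [e', ← Eq.Man.vv_dd c hm.smooth (z l).emb.smooth, ← (z l).g0]
      rfl
    · have e : (fun p => h (l, p)) =ᶠ[𝓝 p] x.f :=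
        eventuallyEq_of_mem (hKc.isOpen_compl.mem_nhds hp) fun p' hp' => oh l p' hp'
      have e' : dv E J (fun p => h (l, p)) p = dv E J x.f p := e.mfderiv_eq
      rw [e', oF l 0 p hp, ph0]
      exact hx.2.2.2.1 p
  have zU : ∀ l q, q ∈ R → (z l).f q ∈ U := fun l q hq => by
    by_cases hq' : q ∈ K
    · exact zin l q hq'
    · rw [(zout l q hq').1, hm.base]
      exact (hm.zero q hq).1
  have mix : ∀ l q, q ∈ R → ∀ p, Θ ((z l).f q) = x.f p → p ∈ χ '' R := fun l q hq p e => by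
    obtain ⟨q', hq', e'⟩ := hm.Uavoid _ (zU l q hq) p e
    rw [e', (hm.zero q' hq').2] at e
    exact ⟨q', hq', hx.1.2.1 e⟩
  have hinj : ∀ l : ℝ, Function.Injective fun p => h (l, p) := fun l p p' e => by
    have nK : ∀ p, p ∉ χ '' R → p ∉ χ '' K := fun p hp hp' => hp (image_mono hKR hp')
    simp only at e
    by_cases hp : p ∈ χ '' R <;> by_cases hp' : p' ∈ χ '' R
    · obtain ⟨q, hq, rfl⟩ := hp
      obtain ⟨q', hq', rfl⟩ := hp'
      rw [eh l q hq, eh l q' hq'] at e
      obtain ⟨m, e'⟩ := hm.Uinj _ (zU l q hq) _ (zU l q' hq') e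
      rw [← zeq] at e'
      rw [(z l).emb.inj e', hm.χper]
    · obtain ⟨q, hq, rfl⟩ := hp
      rw [eh l q hq, oh l p' (nK _ hp')] at e
      exact absurd (mix l q hq p' e) hp'
    · obtain ⟨q, hq, rfl⟩ := hp'
      rw [eh l q hq, oh l p (nK _ hp)] at e
      exact absurd (mix l q hq p e.symm) hp
    · rw [oh l p (nK _ hp), oh l p' (nK _ hp')] at e
      exact hx.1.2.1 e
  have htr : ∀ (l : UI) p, IsCompl (LinearMap.range (F l 1 p).toLinearMap) (Dv D (h (l, p))) :=
    fun l p => by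
      rcases alt p with ⟨q, hq, rfl⟩ | hp
      · rw [← Eq.Man.range_comp_inv (di q hq), eF l 1 q hq, eh l q hq]
        exact (hm.tr _ _).mpr ((z l).g1 q).ne'
      · rw [oF l 1 p hp, oh l p hp, ph1]
        exact hx.2.2.2.2 p
  refine ⟨⟨fun p => h ((1 : UI), p), F 1⟩, ⟨fun l => ⟨fun p => h (l, p), F l⟩,
    ⟨⟨h, hh, fun _ _ => rfl⟩, hc⟩, fun l => ⟨⟨sm l, hinj l, fun p => ?_⟩,
      hc.comp (continuous_const.prodMk continuous_id), Fi l, F0 l, htr l⟩,
    Eq.Man.data_ext (funext fun p => ?_) fun s p => ?_, rfl,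
    eventually_principal.2 fun p hp l => ⟨oh l p hp, fun hg s => ?_⟩⟩, fun q hq hg s => ?_,
    fun p hp hg s => ?_⟩
  · exact (F0 l p ▸ Fi l 0 p : Function.Injective (dv E J (fun x => h (l, x)) p))
  · rcases alt p with ⟨q, hq, rfl⟩ | hp
    · change h (((0 : UI) : ℝ), χ q) = _
      rw [eh _ q hq, Set.Icc.coe_zero, z0, hm.base, (hm.zero q hq).2]
    · exact oh _ p hp
  · change F 0 s p = _
    rcases alt p with ⟨q, hq, rfl⟩ | hp
    · refine cancel (di q hq) ?_
      rw [eF 0 s q hq, ← form' hm hq]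
      simp only [B]
      rw [Set.Icc.coe_zero, z0, hm.base]
    · rw [oF 0 s p hp]
      congr 1
      exact Subtype.ext (by rw [eph]; exact φ0 s s.2.1 s.2.2)
  · change F l s p = dv E J (fun p => h (l, p)) p
    rw [← F0, oF l s p hp, oF l 0 p hp]
    exact (hg _).trans (hg _).symm
  · change F 1 s (χ q) = dv E J (fun p => h ((1 : UI), p)) (χ q)
    rw [← F0]
    refine cancel (di q hq) ?_
    rw [eF 1 s q hq, eF 1 0 q hq]
    simp only [B]
    rw [Set.Icc.coe_one, z1, hg s s.2.1 s.2.2, hg (0 : UI) le_rfl zero_le_one]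
  · change F 1 s p = dv E J (fun p => h ((1 : UI), p)) p
    rw [← F0, oF 1 s p hp, oF 1 0 p hp]
    exact (hg _).trans (hg _).symm

end

end Pool.Agent.Lib.MP_72f1d0_gt.Rel
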