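import Pool.Agent.Lib.MP_72f1d0_gt.Rel.Reach
import Pool.Agent.Lib.MP_72f1d0_gt.PC.MStage

/-!
The circle step and the annulus step, stationary near a closed set that misses the annulus.
-/

set_option linter.unusedSectionVars false

open scoped ContDiff Manifold Topology
open Set Filter

namespace Pool.Agent.Lib.MP_72f1d0_gt.Rel

open PC PC.MStage
open Eq.Stmt (Distr Data IsPath derived diff Engel)
open Eq.Man (dp Fv md vv)

noncomputable section

variable {E : Type*} [NormedAddCommGroup E] [NormedSpace ℝ E] [FiniteDimensional ℝ E]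
  {M : Type*} [TopologicalSpace M] [ChartedSpace E M] [IsManifold 𝓘(ℝ, E) ∞ M]
  {E₂ H₂ : Type*} [NormedAddCommGroup E₂] [NormedSpace ℝ E₂] [FiniteDimensional ℝ E₂]
  [TopologicalSpace H₂] {J : ModelWithCorners ℝ E₂ H₂} {S : Type*} [TopologicalSpace S]
  [ChartedSpace H₂ S] [IsManifold J ∞ S]

variable (J S) in
def CircleF (B : Set S) (D : Distr E M) : Prop :=
  ∀ x : Data J E S M, x.Formal D → ∀ ψ : Q → S, Ann J ψ → range ψ ⊆ Bᶜ → Triv D x ψ →
  ∀ C : Set S, IsClosed C → (∀ᶠ p in 𝓝ˢ C, MGood x p) →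
  ∃ y, ReachF (𝓝ˢ B) D x y ∧ ∀ᶠ p in 𝓝ˢ (C ∪ range fun t : ℝ => ψ (0, t)), MGood y p

variable (J S) in
def AnnF (B : Set S) (D : Distr E M) : Prop :=
  ∃ b : ℝ, 0 < b ∧ ∀ x : Data J E S M, x.Formal D → ∀ ψ : Q → S, Ann J ψ → range ψ ⊆ Bᶜ →
  ZW D x ψ → ∀ ρ : ℝ, ρ < b → (∀ q : Q, ρ ≤ |q.1| → MGood x (ψ q)) →
  ∃ y, ReachF (𝓝ˢ B) D x y ∧ ∀ p, MGood x p ∨ p ∈ range ψ → MGood y p

lemma away [T2Space S] {B : Set S} {ψ : Q → S} (hB : range ψ ⊆ Bᶜ) (hc : Continuous (chi ψ))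
    (hp : Per (chi ψ)) {K : Set Q} (hK : IsClosed K) (hKp : PerSet K) :
    𝓝ˢ B ≤ 𝓟 (chi ψ '' K)ᶜ := by
  rw [le_principal_iff]
  refine (image_closed hc hp hK hKp).isOpen_compl.mem_nhdsSet.2 fun p hpB hp' => ?_
  obtain ⟨q, -, rfl⟩ := hp'
  exact hB (mem_range_self _) hpB

theorem circleF [T2Space S] {D : Distr E M} (hM : ModelStmt J S D) (hC : CircleStmt) (B : Set S) :
    CircleF J S B D := by
  intro x hx ψ hψ hB hTr C hCc hg
  obtain ⟨c, Θ, U, x', -, h⟩ := hM x hx ψ hψ hTr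
  have hG : ∀ q ∈ RS, Good x' q ↔ MGood x (chi ψ q) := fun q hq => Transfer.good_iff hx h hq
  have hR := transferF hx h
  have hc : Continuous (chi ψ) := h.χsmooth.continuous
  have Kc : IsClosed (Kab (1 / 16) (3 / 16)) := kab_closed (by norm_num) (by norm_num)
  have KR : Kab (1 / 16) (3 / 16) ⊆ RS := kab_RS h.Rper (by norm_num)
  rw [eventually_nhdsSet_iff_forall] at hg
  obtain ⟨y', hy', hg'⟩ := hC c x' U h.Uok (fun q hq => by
      rw [h.base]
      exact (h.zero q (KR hq)).1) (Kab (1 / 16) (3 / 16) ∩ chi ψ ⁻¹' C)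
    (Kc.inter (hCc.preimage hc)) ((kab_per _ _).inter (h.χper.perSet fun p => p ∈ C)) (by
      rw [eventually_nhdsSet_iff_forall]
      intro q hq
      filter_upwards [hc.continuousAt.eventually (hg _ hq.2), h.Ropen.mem_nhds (KR hq.1)]
        with q' h1 h2
      exact (hG q' h2).2 h1)
  obtain ⟨y, hy, h1, h2⟩ := hR _ y' Kc (kab_per _ _) KR hy'
  rw [eventually_nhdsSet_iff_forall] at hg'
  have key : ∀ q ∈ RS, (∀ᶠ q' in 𝓝 q, Good y' q') → ∀ᶠ p in 𝓝 (chi ψ q), MGood y p := by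
    intro q hq h3
    refine push (h.χloc q hq) ?_
    filter_upwards [h3, h.Ropen.mem_nhds hq] with q' h4 h5
    exact h1 q' h5 h4
  refine ⟨y, hy.mono (away hB hc h.χper Kc (kab_per _ _)), ?_⟩
  rw [eventually_nhdsSet_iff_forall]
  rintro p (hp | ⟨t, rfl⟩)
  · by_cases h3 : p ∈ chi ψ '' Kab (1 / 16) (3 / 16)
    · obtain ⟨q, hq, rfl⟩ := h3
      exact key q (KR hq) (hg' q (Or.inl ⟨hq, hp⟩))
    · filter_upwards [hg p hp,
        (image_closed hc h.χper Kc (kab_per _ _)).isOpen_compl.mem_nhds h3] with p' h4 h5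
      exact h2 p' h5 h4
  · have e : chi ψ (1 / 8, t) = ψ (0, t) := by simp only [chi, be_mid]
    have := key (1 / 8, t) (mem_RS (by norm_num) (by norm_num)) (hg' _ (Or.inr (by
      show Int.fract (1 / 8 : ℝ) = 1 / 8
      exact Int.fract_eq_self.2 ⟨by norm_num, by norm_num⟩)))
    rwa [e] at this

theorem annF [T2Space S] {D : Distr E M} (hM : ModelStmt J S D) (hA : AnnStmt) (B : Set S) :
    AnnF J S B D := by
  refine ⟨be (1 / 4), be_pos, fun x hx ψ hψ hB hZ ρ hρ hg => ?_⟩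
  have hTr : Triv D x ψ := by
    obtain ⟨L, hL, hLp, hl⟩ := hZ
    refine ⟨fun t => ((Complex.exp (L t)).re, (Complex.exp (L t)).im), by fun_prop,
      fun t => by simp only [hLp], fun t => ⟨fun h0 => ?_, hl t⟩⟩
    exact Complex.exp_ne_zero (L t)
      (Complex.ext (congrArg Prod.fst h0) (congrArg Prod.snd h0))
  obtain ⟨c, Θ, U, x', hN, h⟩ := hM x hx ψ hψ hTr
  have hG : ∀ q ∈ RS, Good x' q ↔ MGood x (chi ψ q) := fun q hq => Transfer.good_iff hx h hq
  have hR := transferF hx h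
  have ho : IsOpen {s : ℝ | ρ < |be s|} := isOpen_lt continuous_const be_cont.abs
  obtain ⟨δ₁, d1, e1⟩ := Metric.isOpen_iff.1 ho 0 (by
    show ρ < |be 0|
    rwa [be_zero, abs_neg, abs_of_pos be_pos])
  obtain ⟨δ₂, d2, e2⟩ := Metric.isOpen_iff.1 ho (1 / 4) (by
    show ρ < |be (1 / 4)|
    rwa [abs_of_pos be_pos])
  have m1 := min_le_left δ₁ δ₂
  have m2 := min_le_right δ₁ δ₂
  have m0 := lt_min d1 d2
  obtain ⟨a, b, y', ha, hb, hy', hg'⟩ := hA c hN x' U h.Uok (fun q q0 q1 => by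
      rw [h.base]
      exact (h.zero q (mem_RS q0 q1)).1) (zr_model hψ hZ h) (min δ₁ δ₂ / 2) (by linarith)
    fun q q0 q1 hq => by
      refine (hG q (mem_RS q0 q1)).2 (hg (be q.1, q.2) (le_of_lt ?_))
      rcases hq with hq | hq
      · refine e1 (a := q.1) ?_
        rw [Metric.mem_ball, Real.dist_eq, abs_lt]
        constructor <;> linarith
      · refine e2 (a := q.1) ?_
        rw [Metric.mem_ball, Real.dist_eq, abs_lt]
        constructor <;> linarith
  obtain ⟨y, hy, h1, h2⟩ := hR _ y' (kab_closed ha.le (by linarith)) (kab_per a b)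
    (kab_RS h.Rper hb.le) hy'
  have key : ∀ q : Q, 0 ≤ q.1 → q.1 ≤ 1 / 4 → MGood y (chi ψ q) := fun q q0 q1 =>
    h1 q (mem_RS q0 q1) (hg' q q0 q1)
  refine ⟨y, hy.mono (away hB h.χsmooth.continuous h.χper (kab_closed ha.le (by linarith))
    (kab_per a b)), fun p hp => ?_⟩
  by_cases h3 : p ∈ chi ψ '' Kab a b
  · obtain ⟨q, hq, rfl⟩ := h3
    rw [← fract_add q, h.χper]
    exact key _ (Int.fract_nonneg _) (hq.2.trans hb.le)
  · rcases hp with hp | ⟨q, rfl⟩
    · exact h2 p h3 hp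
    · by_cases h4 : ρ ≤ |q.1|
      · exact h2 _ h3 (hg q h4)
      · have h5 := abs_lt.1 ((not_le.1 h4).trans hρ)
        obtain ⟨s, hs, e⟩ := intermediate_value_Icc (show (0 : ℝ) ≤ 1 / 4 by norm_num)
          be_cont.continuousOn (show q.1 ∈ Icc (be 0) (be (1 / 4)) from
            ⟨by rw [be_zero]; exact h5.1.le, h5.2.le⟩)
        have := key (s, q.2) hs.1 hs.2
        simp only [chi, e] at this
        exact this

end

end Pool.Agent.Lib.MP_72f1d0_gt.Rel
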