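import Pool.Agent.Lib.MP_72f1d0_gt.Eq.ManStmt

/-!
Definitions used in the statement of the relative theorem: annuli, Moebius bands and punctured
tori embedded in a subset of the surface, and the winding of the formal characteristic line field.
-/

open scoped Manifold ContDiff unitInterval Topology

namespace Pool.Agent.Lib.MP_72f1d0_gt.Rel

open Eq.Stmt

variable {E₂ H : Type*} [NormedAddCommGroup E₂] [NormedSpace ℝ E₂] [TopologicalSpace H]
  (J : ModelWithCorners ℝ E₂ H) {S : Type*} [TopologicalSpace S] [ChartedSpace H S]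

/-- `ψ` parametrises an open annulus embedded in `T`: a local diffeomorphism from the plane into
`T` whose fibres are the orbits of `(s, t) ↦ (s, t + 1)`. -/
def AnnulusIn (T : Set S) (ψ : ℝ × ℝ → S) : Prop :=
  IsLocalDiffeomorph 𝓘(ℝ, ℝ × ℝ) J ∞ ψ ∧ (∀ q, ψ q ∈ T) ∧
    ∀ q q', ψ q = ψ q' ↔ ∃ n : ℤ, q' = q + (0, (n : ℝ))

/-- `T` contains an embedded open Moebius band: a local diffeomorphism from the plane into `T`
whose fibres are the orbits of `(s, t) ↦ (-s, t + 1 / 2)`. -/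
def HasMoebius (T : Set S) : Prop :=
  ∃ χ : ℝ × ℝ → S, IsLocalDiffeomorph 𝓘(ℝ, ℝ × ℝ) J ∞ χ ∧ (∀ q, χ q ∈ T) ∧
    ∀ q q', χ q = χ q' ↔ ∃ n : ℤ, q' = ((-1 : ℝ) ^ n * q.1, q.2 + n / 2)

/-- `q` is not a point of the integer lattice. -/
def OffLattice (q : ℝ × ℝ) : Prop := ∀ m n : ℤ, q ≠ ((m : ℝ), (n : ℝ))

/-- `T` contains an embedded once-punctured torus: a local diffeomorphism from the plane minus
the integer lattice into `T` whose fibres are the orbits of the lattice. -/
def HasHandle (T : Set S) : Prop :=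
  ∃ χ : ℝ × ℝ → S,
    (∀ q, OffLattice q → IsLocalDiffeomorphAt 𝓘(ℝ, ℝ × ℝ) J ∞ χ q ∧ χ q ∈ T) ∧
    ∀ q q', OffLattice q → OffLattice q' →
      (χ q = χ q' ↔ ∃ m n : ℤ, q' = q + ((m : ℝ), (n : ℝ)))

variable {J} {E : Type*} [NormedAddCommGroup E] [NormedSpace ℝ E] {M : Type*}
  [TopologicalSpace M] [ChartedSpace E M] [IsManifold 𝓘(ℝ, E) 1 M]

/-- The formal characteristic line field `F₁⁻¹ [D, D]` has winding number zero along the core
`t ↦ ψ (0, t)` of the annulus `ψ`: it contains the direction of a continuous periodic angle. -/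
def NoWinding (A : Data J E S M) (D : Distr E M) (ψ : ℝ × ℝ → S) : Prop :=
  ∃ θ : ℝ → ℝ, Continuous θ ∧ (∀ t, θ (t + 1) = θ t) ∧ ∀ t,
    A.F 1 (ψ (0, t)) (mfderiv 𝓘(ℝ, ℝ × ℝ) J ψ (0, t) (Real.cos (θ t), Real.sin (θ t))) ∈
      derived D (A.f (ψ (0, t)))

/-- `T` contains a punctured torus, or a Moebius band, or an annulus along whose core the formal
characteristic line field does not wind, or a boundary point of the surface. -/
def Fillable (A : Data J E S M) (D : Distr E M) (T : Set S) : Prop :=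
  HasHandle J T ∨ HasMoebius J T ∨ (∃ ψ, AnnulusIn J T ψ ∧ NoWinding A D ψ) ∨
    ∃ y ∈ T, J.IsBoundaryPoint y

/-- `F s = df` for all `s` on a neighbourhood of `C`. -/
def GenuineNear (A : Data J E S M) (C : Set S) : Prop :=
  ∀ᶠ x in 𝓝ˢ C, ∀ s, A.F s x = diff J E A.f x

/-- Over a neighbourhood of `C` all the data `γ l` agree with `A`. -/
def ConstNear (γ : I → Data J E S M) (A : Data J E S M) (C : Set S) : Prop :=
  ∀ᶠ x in 𝓝ˢ C, ∀ l s v, (γ l).total s ⟨x, v⟩ = A.total s ⟨x, v⟩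

end Pool.Agent.Lib.MP_72f1d0_gt.Rel
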