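import Pool.Agent.Lib.MP_72f1d0_gt.Rel.Stmt
import Pool.Agent.Lib.MP_72f1d0_gt.PC.Line
import Pool.Agent.Lib.MP_72f1d0_gt.PC.Surf
import Pool.Agent.Lib.MP_72f1d0_gt.PC.Transfer

/-!
Moebius bands and punctured tori contain annuli without winding.
-/

set_option linter.unusedSectionVars false

open scoped ContDiff Manifold Topology ComplexConjugate
open Set Filter

namespace Pool.Agent.Lib.MP_72f1d0_gt.Rel

open PC PC.Line
open Eq.Stmt (Distr Data IsPath derived diff Engel)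
open Eq.Man (dp Fv)

noncomputable section

namespace Wind

/-- A diffeomorphism of the line onto the unit interval. -/
def sg (s : ℝ) : ℝ := 1 / 2 + Real.arctan s / Real.pi

/-- Its periodic inverse. -/
def tg (s : ℝ) : ℝ := Real.tan (Real.pi * (s - 1 / 2))

lemma sg_pos (s : ℝ) : 0 < sg s := by
  have h := Real.neg_pi_div_two_lt_arctan s
  have hp := Real.pi_pos
  have : -(1 / 2) < Real.arctan s / Real.pi := by rw [lt_div_iff₀ hp]; linarith
  unfold sg; linarith

lemma sg_lt (s : ℝ) : sg s < 1 := by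
  have h := Real.arctan_lt_pi_div_two s
  have hp := Real.pi_pos
  have : Real.arctan s / Real.pi < 1 / 2 := by rw [div_lt_iff₀ hp]; linarith
  unfold sg; linarith

lemma sg_inj : Function.Injective sg := fun a b h => by
  have hp := Real.pi_pos
  unfold sg at h
  exact Real.arctan_injective ((div_left_inj' hp.ne').1 (add_left_cancel h))

lemma sg_smooth : ContDiff ℝ ∞ sg :=
  contDiff_const.add (Real.contDiff_arctan.div_const _)

lemma sg_deriv (s : ℝ) : HasDerivAt sg (1 / (1 + s ^ 2) / Real.pi) s :=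
  ((Real.hasDerivAt_arctan s).div_const Real.pi).const_add _

lemma sg_ne (s : ℝ) (m : ℤ) : sg s ≠ m := fun h => by
  have h1 := sg_pos s
  have h2 := sg_lt s
  rw [h] at h1 h2
  have h3 : (0 : ℤ) < m := by exact_mod_cast h1
  have h4 : m < 1 := by exact_mod_cast h2
  omega

lemma sg_sub {s s' : ℝ} {m : ℤ} (h : sg s' = sg s + m) : s' = s := by
  have h1 : (-1 : ℝ) < m := by linarith [sg_pos s', sg_lt s]
  have h2 : (m : ℝ) < 1 := by linarith [sg_pos s, sg_lt s']
  have h3 : (-1 : ℤ) < m := by exact_mod_cast h1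
  have h4 : m < 1 := by exact_mod_cast h2
  have h5 : m = 0 := by omega
  rw [h5, Int.cast_zero, add_zero] at h
  exact sg_inj h

lemma tg_add (s : ℝ) (m : ℤ) : tg (s + m) = tg s := by
  unfold tg
  rw [show Real.pi * (s + m - 1 / 2) = Real.pi * (s - 1 / 2) + m * Real.pi by ring,
    Real.tan_add_int_mul_pi]

lemma sg_tg {s : ℝ} (h : Int.fract s ≠ 0) : sg (tg s) = Int.fract s := by
  have hp := Real.pi_pos
  have h0 : 0 < Int.fract s := lt_of_le_of_ne (Int.fract_nonneg s) h.symm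
  have h1 := Int.fract_lt_one s
  have e : tg s = tg (Int.fract s) := by
    conv_lhs => rw [← Int.fract_add_floor s, tg_add]
  rw [e]
  unfold sg tg
  rw [Real.arctan_tan (by nlinarith) (by nlinarith)]
  field_simp
  ring

lemma tg_cont {s : ℝ} (h : Int.fract s ≠ 0) : ContinuousAt tg s := by
  have hp := Real.pi_pos
  have h0 : 0 < Int.fract s := lt_of_le_of_ne (Int.fract_nonneg s) h.symm
  have h1 := Int.fract_lt_one s
  refine (Real.continuousAt_tan.2 ?_).comp (f := fun s : ℝ => Real.pi * (s - 1 / 2)) (by fun_prop)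
  show Real.cos (Real.pi * (s - 1 / 2)) ≠ 0
  rw [show Real.pi * (s - 1 / 2) = Real.pi * (Int.fract s - 1 / 2) + ⌊s⌋ * Real.pi by
    rw [← Int.self_sub_floor]; ring, Real.cos_add_int_mul_pi]
  refine mul_ne_zero (zpow_ne_zero _ (by norm_num)) (Real.cos_pos_of_mem_Ioo ⟨?_, ?_⟩).ne'
  · nlinarith
  · nlinarith

lemma floor_ev {s : ℝ} (h : Int.fract s ≠ 0) : ∀ᶠ s' in 𝓝 s, ⌊s'⌋ = ⌊s⌋ ∧ Int.fract s' ≠ 0 := by
  have h0 : 0 < Int.fract s := lt_of_le_of_ne (Int.fract_nonneg s) h.symm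
  have h1 : (⌊s⌋ : ℝ) < s := by rw [← Int.self_sub_floor] at h0; linarith
  filter_upwards [Ioo_mem_nhds h1 (Int.lt_floor_add_one s)] with s' hs'
  have h2 : ⌊s'⌋ = ⌊s⌋ := Int.floor_eq_iff.2 ⟨hs'.1.le, hs'.2⟩
  refine ⟨h2, ?_⟩
  rw [← Int.self_sub_floor, h2]
  linarith [hs'.1]

lemma log_ne {X : Type*} [NormedAddCommGroup X] [NormedSpace ℝ X] {b : X → ℂ} (hb : Continuous b)
    (h0 : ∀ x, b x ≠ 0) : ∃ F : X → ℂ, Continuous F ∧ ∀ x, Complex.exp (F x) = b x := by
  let f : C(X, {z : ℂ // z ≠ 0}) := ⟨fun p => ⟨b p, h0 p⟩, hb.subtype_mk _⟩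
  obtain ⟨F, ⟨-, hF⟩, -⟩ := Complex.isCoveringMap_exp.existsUnique_continuousMap_lifts f 0
    (Complex.log (b 0)) (Subtype.ext (Complex.exp_log (h0 0)))
  exact ⟨F, F.continuous, fun p => congrArg Subtype.val (congrFun hF p)⟩

/-- The increments of a logarithm of a periodic function. -/
lemma incr {F : Q → ℂ} (hF : Continuous F) (v : Q)
    (h : ∀ q, Complex.exp (F (q + v)) = Complex.exp (F q)) :
    ∃ a : ℤ, ∀ (n : ℤ) q, F (q + (n : ℝ) • v) = F q + n * (a * (2 * Real.pi * Complex.I)) := by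
  obtain ⟨a, ha⟩ := Complex.exp_eq_exp_iff_exists_int.1 (h 0)
  have h1 : ∀ q, F (q + v) = F q + a * (2 * Real.pi * Complex.I) :=
    log_eq (F := fun q => F (q + v)) (G := fun q => F q + a * (2 * Real.pi * Complex.I))
      (by fun_prop) (by fun_prop) (fun q => by
        rw [h, Complex.exp_add, Complex.exp_int_mul_two_pi_mul_I, mul_one]) ha
  refine ⟨a, fun n => ?_⟩
  induction n using Int.induction_on with
  | zero => simp
  | succ n ih =>
    intro q
    rw [show q + (((n : ℤ) + 1 : ℤ) : ℝ) • v = q + ((n : ℤ) : ℝ) • v + v by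
      push_cast; rw [add_smul, one_smul, add_assoc], h1, ih]
    push_cast
    ring
  | pred n ih =>
    intro q
    have h2 := h1 (q + ((-(n : ℤ) - 1 : ℤ) : ℝ) • v)
    rw [show q + ((-(n : ℤ) - 1 : ℤ) : ℝ) • v + v = q + ((-(n : ℤ) : ℤ) : ℝ) • v by
      push_cast; rw [sub_smul, one_smul, add_assoc, sub_add_cancel], ih] at h2
    rw [← sub_eq_iff_eq_add.2 h2]
    push_cast
    ring

lemma bezout (a b : ℤ) : ∃ p q n₁ n₂ : ℤ, n₁ * q - n₂ * p = 1 ∧ p * a + q * b = 0 := by
  rcases Nat.eq_zero_or_pos (Int.gcd a b) with h | h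
  · obtain ⟨rfl, rfl⟩ := Int.gcd_eq_zero_iff.1 h
    exact ⟨0, 1, 1, 0, by simp, by simp⟩
  · obtain ⟨a', b', h1, h2, h3⟩ := Int.exists_gcd_one h
    obtain ⟨x, y, e⟩ := Int.isCoprime_iff_gcd_eq_one.2 h1
    generalize ((Int.gcd a b : ℕ) : ℤ) = g at h2 h3
    exact ⟨-b', a', x, y, by linear_combination e, by rw [h2, h3]; ring⟩

lemma off_iff (q : Q) : OffLattice q ↔ Int.fract q.1 ≠ 0 ∨ Int.fract q.2 ≠ 0 := by
  constructor
  · intro h
    by_contra hn
    push Not at hn
    refine h ⌊q.1⌋ ⌊q.2⌋ (Prod.ext ?_ ?_)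
    · have := Int.fract_add_floor q.1
      rw [hn.1, zero_add] at this
      exact this.symm
    · have := Int.fract_add_floor q.2
      rw [hn.2, zero_add] at this
      exact this.symm
  · rintro h m n rfl
    simp at h

lemma off_open : IsOpen {q : Q | OffLattice q} := by
  rw [isOpen_iff_mem_nhds]
  intro q hq
  rcases (off_iff q).1 hq with h | h
  · filter_upwards [continuous_fst.continuousAt.eventually (floor_ev h)] with q' h'
    exact (off_iff q').2 (Or.inl h'.2)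
  · filter_upwards [continuous_snd.continuousAt.eventually (floor_ev h)] with q' h'
    exact (off_iff q').2 (Or.inr h'.2)

/-- A periodic unimodular function off the lattice has a periodic logarithm along some closed
line. -/
lemma line_log {u : Q → ℂ} (hu : ContinuousOn u {q | OffLattice q})
    (h1 : ∀ q, OffLattice q → ‖u q‖ = 1)
    (hp : ∀ q (m n : ℤ), OffLattice q → u (q + ((m : ℝ), (n : ℝ))) = u q) :
    ∃ p q n₁ n₂ : ℤ, n₁ * q - n₂ * p = 1 ∧ ∀ x : Q,
      (∀ t : ℝ, OffLattice (x + t • ((p : ℝ), (q : ℝ)))) →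
      ∃ Λ : ℝ → ℂ, Continuous Λ ∧ (∀ t, Λ (t + 1) = Λ t) ∧
        ∀ t : ℝ, Complex.exp (Λ t) = u (x + t • ((p : ℝ), (q : ℝ))) := by
  have sc := sg_smooth.continuous
  have o1 : ∀ w : Q, OffLattice (sg w.1, w.2) := fun w m n h => sg_ne _ m (congrArg Prod.fst h)
  have o2 : ∀ w : Q, OffLattice (w.1, sg w.2) := fun w m n h => sg_ne _ n (congrArg Prod.snd h)
  obtain ⟨F, Fc, -, hF⟩ := exists_log (u := fun w : Q => u (sg w.1, w.2))
    (hu.comp_continuous (by fun_prop) o1) (fun w => h1 _ (o1 w))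
    (c := Complex.log (u (sg 0, 0))) (Complex.exp_log fun e => by simpa [e] using h1 _ (o1 0))
  obtain ⟨G₀, G₀c, -, hG₀⟩ := exists_log (u := fun w : Q => u (w.1, sg w.2))
    (hu.comp_continuous (by fun_prop) o2) (fun w => h1 _ (o2 w))
    (c := Complex.log (u (0, sg 0))) (Complex.exp_log fun e => by simpa [e] using h1 _ (o2 0))
  let G : Q → ℂ := fun w => G₀ w + (F (0, sg 0) - G₀ (sg 0, 0))
  have Gc : Continuous G := G₀c.add continuous_const
  have hG : ∀ w, Complex.exp (G w) = u (w.1, sg w.2) := fun w => by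
    simp only [G]
    rw [Complex.exp_add, Complex.exp_sub, hF, hG₀, hG₀, div_self, mul_one]
    intro e
    simpa [e] using h1 _ (o1 (0, sg 0))
  have FG : ∀ w : Q, F (w.1, sg w.2) = G (sg w.1, w.2) :=
    log_eq (F := fun w : Q => F (w.1, sg w.2)) (G := fun w : Q => G (sg w.1, w.2))
      (by fun_prop) (by fun_prop) (fun w => by rw [hF, hG]) (x₀ := 0) (by simp [G])
  obtain ⟨b, hb⟩ := incr Fc (0, 1) fun w => by
    rw [hF, hF, ← hp (sg w.1, w.2) 0 1 (o1 w)]
    simp
  obtain ⟨a, ha⟩ := incr Gc (1, 0) fun w => by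
    rw [hG, hG, ← hp (w.1, sg w.2) 1 0 (o2 w)]
    simp
  have hb' : ∀ (n : ℤ) (s t : ℝ), F (s, t + n) = F (s, t) + n * (b * (2 * Real.pi * Complex.I)) :=
    fun n s t => by simpa using hb n (s, t)
  have ha' : ∀ (n : ℤ) (s t : ℝ), G (s + n, t) = G (s, t) + n * (a * (2 * Real.pi * Complex.I)) :=
    fun n s t => by simpa using ha n (s, t)
  let A : Q → ℂ := fun w => F (tg w.1, w.2) + ⌊w.1⌋ * (a * (2 * Real.pi * Complex.I))
  let B : Q → ℂ := fun w => G (w.1, tg w.2) + ⌊w.2⌋ * (b * (2 * Real.pi * Complex.I))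
  have AB : ∀ w : Q, Int.fract w.1 ≠ 0 → Int.fract w.2 ≠ 0 → A w = B w := fun w e1 e2 => by
    have k1 := hb' ⌊w.2⌋ (tg w.1) (Int.fract w.2)
    have k2 := ha' ⌊w.1⌋ (Int.fract w.1) (tg w.2)
    have k3 := FG (tg w.1, tg w.2)
    rw [Int.fract_add_floor] at k1 k2
    simp only [sg_tg e1, sg_tg e2] at k3
    simp only [A, B]
    rw [k1, k2, k3]
    ring
  have eA : ∀ w : Q, Int.fract w.1 ≠ 0 → Complex.exp (A w) = u w := fun w e => by
    simp only [A]
    rw [Complex.exp_add, hF, ← mul_assoc, ← Int.cast_mul, Complex.exp_int_mul_two_pi_mul_I,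
      mul_one, sg_tg e, ← hp (Int.fract w.1, w.2) ⌊w.1⌋ 0 ((off_iff _).2 (Or.inl (by simpa using e)))]
    simp
  have eB : ∀ w : Q, Int.fract w.2 ≠ 0 → Complex.exp (B w) = u w := fun w e => by
    simp only [B]
    rw [Complex.exp_add, hG, ← mul_assoc, ← Int.cast_mul, Complex.exp_int_mul_two_pi_mul_I,
      mul_one, sg_tg e, ← hp (w.1, Int.fract w.2) 0 ⌊w.2⌋ ((off_iff _).2 (Or.inr (by simpa using e)))]
    simp
  have cA : ∀ w : Q, Int.fract w.1 ≠ 0 → ContinuousAt A w := fun w e => by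
    have k : ContinuousAt (fun w' : Q => F (tg w'.1, w'.2) +
        ⌊w.1⌋ * (a * (2 * Real.pi * Complex.I))) w :=
      (Fc.continuousAt.comp (((tg_cont e).comp continuousAt_fst).prodMk continuousAt_snd)).add
        continuousAt_const
    refine k.congr ?_
    filter_upwards [continuous_fst.continuousAt.eventually (floor_ev e)] with w' h'
    simp only [A, h'.1]
  have cB : ∀ w : Q, Int.fract w.2 ≠ 0 → ContinuousAt B w := fun w e => by
    have k : ContinuousAt (fun w' : Q => G (w'.1, tg w'.2) +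
        ⌊w.2⌋ * (b * (2 * Real.pi * Complex.I))) w :=
      (Gc.continuousAt.comp (continuousAt_fst.prodMk ((tg_cont e).comp continuousAt_snd))).add
        continuousAt_const
    refine k.congr ?_
    filter_upwards [continuous_snd.continuousAt.eventually (floor_ev e)] with w' h'
    simp only [B, h'.1]
  obtain ⟨p, q, n₁, n₂, e1, e2⟩ := bezout a b
  have e3 : (p : ℂ) * a + q * b = 0 := by exact_mod_cast e2
  refine ⟨p, q, n₁, n₂, e1, fun x hx => ?_⟩
  let l : ℝ → Q := fun t => x + t • ((p : ℝ), (q : ℝ))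
  have lc : Continuous l := by fun_prop
  have l1 : ∀ t, l (t + 1) = ((l t).1 + p, (l t).2 + q) := fun t => by
    simp only [l]
    ext <;> simp <;> ring
  classical
  refine ⟨fun t => if Int.fract (l t).1 ≠ 0 then A (l t) else B (l t),
    continuous_iff_continuousAt.2 fun t => ?_, fun t => ?_, fun t => ?_⟩
  · by_cases e : Int.fract (l t).1 ≠ 0
    · refine ((cA _ e).comp lc.continuousAt).congr ?_
      filter_upwards [lc.fst.continuousAt.eventually (floor_ev e)] with t' h'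
      exact (if_pos h'.2).symm
    · have e' : Int.fract (l t).2 ≠ 0 := ((off_iff _).1 (hx t)).resolve_left e
      refine ((cB _ e').comp lc.continuousAt).congr ?_
      filter_upwards [lc.snd.continuousAt.eventually (floor_ev e')] with t' h'
      split_ifs with h2
      · exact (AB _ h2 h'.2).symm
      · rfl
  · simp only [l1, Int.fract_add_intCast]
    split_ifs
    · simp only [A, tg_add, hb', Int.floor_add_intCast]
      push_cast
      linear_combination (2 * Real.pi * Complex.I) * e3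
    · simp only [B, tg_add, ha', Int.floor_add_intCast]
      push_cast
      linear_combination (2 * Real.pi * Complex.I) * e3
  · beta_reduce
    split_ifs with e
    · exact eA _ e
    · exact eB _ (((off_iff _).1 (hx t)).resolve_left e)

/-- The strip in the direction `v`. -/
def kk (n v : Q) (q : Q) : Q := sg q.1 • n + q.2 • v

/-- Its derivative. -/
def kd (n v : Q) (c : ℝ) : Q →L[ℝ] Q :=
  (c • ContinuousLinearMap.fst ℝ ℝ ℝ).smulRight n + (ContinuousLinearMap.snd ℝ ℝ ℝ).smulRight v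

lemma kk_deriv (n v q : Q) : HasFDerivAt (kk n v) (kd n v (1 / (1 + q.1 ^ 2) / Real.pi)) q :=
  ((HasDerivAt.comp_hasFDerivAt (h₂ := sg) (f := Prod.fst) q (sg_deriv q.1)
    hasFDerivAt_fst).smul_const n).add (hasFDerivAt_snd.smul_const v)

lemma kd_inv {n v : Q} (h : n.1 * v.2 - n.2 * v.1 = 1) {c : ℝ} (hc : c ≠ 0) :
    (kd n v c).IsInvertible := by
  have hi : Function.Injective (kd n v c) := by
    refine (injective_iff_map_eq_zero _).2 fun w hw => ?_
    have h1 := congrArg Prod.fst hw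
    have h2 := congrArg Prod.snd hw
    simp [kd] at h1 h2
    have h3 : c * w.1 = 0 := by linear_combination v.2 * h1 - v.1 * h2 - c * w.1 * h
    have h4 : w.2 = 0 := by linear_combination n.1 * h2 - n.2 * h1 - w.2 * h
    exact Prod.ext ((mul_eq_zero.1 h3).resolve_left hc) h4
  exact ⟨(LinearEquiv.ofBijective (kd n v c).toLinearMap ⟨hi,
    LinearMap.injective_iff_surjective.1 hi⟩).toContinuousLinearEquiv, rfl⟩

lemma kk_ld {n v : Q} (h : n.1 * v.2 - n.2 * v.1 = 1) (q : Q) :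
    IsLocalDiffeomorphAt 𝓘(ℝ, Q) 𝓘(ℝ, Q) ∞ (kk n v) q := by
  refine ift Q Q (kk n v) univ isOpen_univ (ContDiff.contDiffOn
    (((sg_smooth.comp contDiff_fst).smul contDiff_const).add (contDiff_snd.smul contDiff_const)))
    (fun x _ => ?_) q (mem_univ q)
  rw [(kk_deriv n v x).fderiv]
  have := Real.pi_pos
  exact kd_inv h (by positivity)

variable {E : Type*} [NormedAddCommGroup E] [NormedSpace ℝ E] [FiniteDimensional ℝ E]
  {M : Type*} [TopologicalSpace M] [ChartedSpace E M] [IsManifold 𝓘(ℝ, E) ∞ M]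
  {E₂ H₂ : Type*} [NormedAddCommGroup E₂] [NormedSpace ℝ E₂] [FiniteDimensional ℝ E₂]
  [TopologicalSpace H₂] {J : ModelWithCorners ℝ E₂ H₂} {S : Type*} [TopologicalSpace S]
  [ChartedSpace H₂ S] [IsManifold J ∞ S]

lemma dp_comp {χ : Q → S} {g : Q → Q} {A : Q →L[ℝ] Q} {q : Q} (hg : HasFDerivAt g A q)
    (h : IsLocalDiffeomorphAt 𝓘(ℝ, Q) J ∞ χ (g q)) (w : Q) :
    dp J (fun y => χ (g y)) q w = dp J χ (g q) (A w) := by
  have := (HasMFDerivAt.comp q (h.contMDiffAt.mdifferentiableAt (by simp)).hasMFDerivAt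
    hg.hasMFDerivAt).mfderiv
  exact congrArg (fun T : Q →L[ℝ] E₂ => T w) this

/-- An annulus without winding from a strip. -/
lemma ann_of {D : Distr E M} {x : Data J E S M} {χ : Q → S} {n v : Q}
    (h : n.1 * v.2 - n.2 * v.1 = 1) (hχ : ∀ q, IsLocalDiffeomorphAt 𝓘(ℝ, Q) J ∞ χ (kk n v q))
    (hf : ∀ q q', χ (kk n v q) = χ (kk n v q') ↔ ∃ m : ℤ, q' = q + (0, (m : ℝ)))
    {Λ : ℝ → ℂ} (hΛ : Continuous Λ) (hp : ∀ t, Λ (t + 1) = Λ t)
    (hl : ∀ t : ℝ, dp J χ (kk n v (0, t)) ((Complex.exp (Λ t)).re, (Complex.exp (Λ t)).im) ∈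
      lin D x (χ (kk n v (0, t)))) :
    Ann J (fun q => χ (kk n v q)) ∧ ZW D x fun q => χ (kk n v q) := by
  refine ⟨⟨fun q => (kk_ld h q).comp _ _ (hχ q), hf⟩, ?_⟩
  have hπ := Real.pi_pos
  obtain ⟨e, he⟩ := kd_inv h (c := 1 / (1 + (0 : ℝ) ^ 2) / Real.pi) (by positivity)
  obtain ⟨K, Kc, hK⟩ := log_ne (b := fun z : ℂ => Complex.equivRealProdCLM.symm
    (e.symm (Complex.equivRealProdCLM (Complex.exp z)))) (by fun_prop) fun z hz => by
      simp only [map_eq_zero_iff _ (ContinuousLinearEquiv.injective _)] at hz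
      exact Complex.exp_ne_zero z hz
  refine ⟨fun t => K (Λ t), Kc.comp hΛ, fun t => by simp only [hp], fun t => ?_⟩
  have e1 : (((Complex.exp (K (Λ t))).re, (Complex.exp (K (Λ t))).im) : Q) =
      e.symm ((Complex.exp (Λ t)).re, (Complex.exp (Λ t)).im) := by
    rw [hK]
    exact Complex.equivRealProdCLM.apply_symm_apply _
  rw [e1, dp_comp (kk_deriv n v (0, t)) (hχ _), ← he]
  simp only [ContinuousLinearEquiv.coe_coe, ContinuousLinearEquiv.apply_symm_apply]
  exact hl t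

/-- The line field in the coordinates `χ` on an open set. -/
lemma unit_on (hE : Module.finrank ℝ E = 4) {D : Distr E M} (hD : Engel D) {x : Data J E S M}
    (hx : x.Formal D) {χ : Q → S} {Ω : Set Q} (hΩ : IsOpen Ω)
    (hχ : ∀ q ∈ Ω, IsLocalDiffeomorphAt 𝓘(ℝ, Q) J ∞ χ q) :
    ∃ u : Q → ℂ, ContinuousOn u Ω ∧ ∀ q ∈ Ω, ‖u q‖ = 1 ∧
      ∀ z : ℂ, dp J χ q (z.re, z.im) ∈ lin D x (χ q) ↔ z = u q * conj z := by
  classical
  have hs : ContMDiffOn 𝓘(ℝ, Q) J ∞ χ Ω := fun q hq => (hχ q hq).contMDiffAt.contMDiffWithinAt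
  have h1 := (hs.continuousOn_tangentMapWithin (by simp) hΩ.uniqueMDiffOn).comp
    (s := Ω ×ˢ (univ : Set Q))
    (tangentBundleModelSpaceHomeomorph 𝓘(ℝ, Q)).symm.continuous.continuousOn fun w hw => hw.1
  have h2 : ContinuousOn (fun w : Q × Q =>
      (⟨χ w.1, mfderiv 𝓘(ℝ, Q) J χ w.1 w.2⟩ : TangentBundle J S)) (Ω ×ˢ univ) := by
    refine h1.congr fun w hw => ?_
    show (⟨χ w.1, mfderiv 𝓘(ℝ, Q) J χ w.1 w.2⟩ : TangentBundle J S) =
      ⟨χ w.1, mfderivWithin 𝓘(ℝ, Q) J χ Ω w.1 w.2⟩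
    rw [mfderivWithin_of_mem_nhds (hΩ.mem_nhds hw.1)]
  have c1 : Continuous (x.total 1) := hx.2.1.comp (continuous_const.prodMk continuous_id)
  obtain ⟨u, h3, h4⟩ := fam hE hD (fun _ : Ω => x) (fun y => χ y)
    (fun y => (dp J χ y).comp (Complex.equivRealProdCLM : ℂ →L[ℝ] Q)) (fun _ => hx)
    (fun y => (Transfer.dp_inv_at (hχ y y.2)).surjective.comp Complex.equivRealProdCLM.surjective)
    fun z => c1.comp (h2.comp_continuous
      (f := fun y : Ω => ((y.1, (z.re, z.im)) : Q × Q)) (by fun_prop) fun y => ⟨y.2, trivial⟩)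
  refine ⟨fun q => if h : q ∈ Ω then u ⟨q, h⟩ else 0, ?_, fun q hq => ?_⟩
  · rw [continuousOn_iff_continuous_domRestrict]
    refine h3.congr fun y => ?_
    show u y = if h : y.1 ∈ Ω then u ⟨y.1, h⟩ else 0
    rw [dif_pos y.2]
  · simp only [dif_pos hq]
    exact h4 ⟨q, hq⟩

end Wind

open Wind

variable {E : Type*} [NormedAddCommGroup E] [NormedSpace ℝ E] [FiniteDimensional ℝ E]
  {M : Type*} [TopologicalSpace M] [ChartedSpace E M] [IsManifold 𝓘(ℝ, E) ∞ M]
  {E₂ H₂ : Type*} [NormedAddCommGroup E₂] [NormedSpace ℝ E₂] [FiniteDimensional ℝ E₂]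
  [TopologicalSpace H₂] {J : ModelWithCorners ℝ E₂ H₂} {S : Type*} [TopologicalSpace S]
  [ChartedSpace H₂ S] [IsManifold J ∞ S]

theorem ann_of_handle (hE : Module.finrank ℝ E = 4) {D : Distr E M} (hD : Engel D)
    {x : Data J E S M} (hx : x.Formal D) {T : Set S} (h : HasHandle J T) :
    ∃ ψ : Q → S, Ann J ψ ∧ range ψ ⊆ T ∧ ZW D x ψ := by
  obtain ⟨χ, h1, h2⟩ := h
  obtain ⟨u, uc, hu⟩ := unit_on hE hD hx off_open fun q hq => (h1 q hq).1
  have oa : ∀ (q : Q) (m n : ℤ), OffLattice q → OffLattice (q + ((m : ℝ), (n : ℝ))) :=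
    fun q m n hq a b e => hq (a - m) (b - n) (by
      rw [eq_sub_of_add_eq e]
      ext <;> simp)
  obtain ⟨p, q, n₁, n₂, e1, hl⟩ := line_log uc (fun q hq => (hu q hq).1) fun q m n hq => by
    have hq' := oa q m n hq
    refine uniq (hu q hq).1 fun z hz => ((hu _ hq').2 z).1 ?_
    have hk : HasFDerivAt (fun y : Q => y + ((m : ℝ), (n : ℝ))) (ContinuousLinearMap.id ℝ Q) q :=
      (hasFDerivAt_id q).add_const _
    have e2 := dp_comp hk (h1 _ hq').1 (z.re, z.im)
    have e3 : (fun y => χ (y + ((m : ℝ), (n : ℝ)))) =ᶠ[𝓝 q] χ := by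
      filter_upwards [off_open.mem_nhds hq] with y hy
      exact ((h2 y _ hy (oa y m n hy)).2 ⟨m, n, rfl⟩).symm
    have e4 : dp J (fun y => χ (y + ((m : ℝ), (n : ℝ)))) q = dp J χ q := e3.mfderiv_eq
    rw [e4, ContinuousLinearMap.id_apply] at e2
    rw [← e2, e3.eq_of_nhds]
    exact ((hu q hq).2 z).2 hz
  have e1' : (n₁ : ℝ) * q - n₂ * p = 1 := by exact_mod_cast e1
  have off : ∀ w : Q, OffLattice (kk ((n₁ : ℝ), (n₂ : ℝ)) ((p : ℝ), (q : ℝ)) w) := fun w a b e => by
    have k1 := congrArg Prod.fst e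
    have k2 := congrArg Prod.snd e
    simp [kk] at k1 k2
    refine sg_ne w.1 (a * q - b * p) ?_
    push_cast
    linear_combination (q : ℝ) * k1 - (p : ℝ) * k2 - sg w.1 * e1'
  obtain ⟨Λ, Λc, Λp, hΛ⟩ := hl (sg 0 • ((n₁ : ℝ), (n₂ : ℝ))) fun t => off (0, t)
  obtain ⟨a1, a2⟩ := ann_of (D := D) (x := x) (n := ((n₁ : ℝ), (n₂ : ℝ)))
    (v := ((p : ℝ), (q : ℝ))) e1' (fun w => (h1 _ (off w)).1) (fun w w' => by
      rw [h2 _ _ (off w) (off w')]
      constructor
      · rintro ⟨a, b, e⟩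
        have k1 := congrArg Prod.fst e
        have k2 := congrArg Prod.snd e
        simp [kk] at k1 k2
        have k3 : w'.1 = w.1 := sg_sub (m := a * q - b * p) (by
          push_cast
          linear_combination (q : ℝ) * k1 - (p : ℝ) * k2 - (sg w'.1 - sg w.1) * e1')
        refine ⟨n₁ * b - n₂ * a, Prod.ext (by simpa using k3) ?_⟩
        simp only [Prod.snd_add]
        push_cast
        linear_combination (n₁ : ℝ) * k2 - (n₂ : ℝ) * k1 - (w'.2 - w.2) * e1'
      · rintro ⟨m, rfl⟩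
        refine ⟨m * p, m * q, ?_⟩
        ext <;> simp [kk] <;> ring) (Λ := fun t => Λ t / 2) (Λc.div_const _)
    (fun t => by simp only [Λp]) fun t =>
      ((hu _ (off (0, t))).2 _).2 (half (hu _ (off (0, t))).1 (hΛ t))
  exact ⟨_, a1, by rintro _ ⟨w, rfl⟩; exact (h1 _ (off w)).2, a2⟩

theorem ann_of_moebius (hE : Module.finrank ℝ E = 4) {D : Distr E M} (hD : Engel D)
    {x : Data J E S M} (hx : x.Formal D) {T : Set S} (h : HasMoebius J T) :
    ∃ ψ : Q → S, Ann J ψ ∧ range ψ ⊆ T ∧ ZW D x ψ := by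
  obtain ⟨χ, h0, h1, h2⟩ := h
  obtain ⟨u, uc, hu⟩ := unit_on hE hD hx isOpen_univ fun q _ => h0 q
  rw [continuousOn_univ] at uc
  simp only [mem_univ, forall_const] at hu
  let g : Q → Q := fun y => (-y.1, y.2 + 1 / 2)
  have gc : Continuous g := by fun_prop
  have hg : ∀ y, χ (g y) = χ y := fun y => ((h2 y _).2 ⟨1, by simp [g]⟩).symm
  have hc : ∀ y, conj (u (g y)) = u y := fun y => by
    refine uniq (hu y).1 fun z hz => ?_
    have hk : HasFDerivAt g ((-ContinuousLinearMap.fst ℝ ℝ ℝ).prod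
        (ContinuousLinearMap.snd ℝ ℝ ℝ)) y :=
      hasFDerivAt_fst.neg.prodMk (hasFDerivAt_snd.add_const _)
    have e2 := dp_comp hk (h0 _) (z.re, z.im)
    simp only [hg] at e2
    have e3 := ((hu y).2 z).2 hz
    rw [e2, ← hg y] at e3
    have e4 := ((hu (g y)).2 (-conj z)).1 (by simpa using e3)
    have e5 := congrArg conj e4
    simp only [map_neg, map_mul, Complex.conj_conj, mul_neg, neg_inj] at e5
    exact e5
  obtain ⟨F, Fc, -, hF⟩ := exists_log uc (fun y => (hu y).1) (c := Complex.log (u 0))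
    (Complex.exp_log fun e => by simpa [e] using (hu 0).1)
  have k1 : ∀ y, Complex.exp (F (g y) + F y) = 1 := fun y => by
    rw [Complex.exp_add, hF, hF, ← hc y, Complex.mul_conj, Complex.normSq_eq_norm_sq, (hu _).1]
    simp
  have k2 : ∀ y, F (g y) + F y = F (g 0) + F 0 :=
    log_eq (F := fun y => F (g y) + F y) (G := fun _ => F (g 0) + F 0) (by fun_prop)
      continuous_const (fun y => by rw [k1, k1]) (x₀ := 0) rfl
  have k3 : ∀ s t : ℝ, F (s, t + 1) = F (s, t) := fun s t => by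
    have a1 := k2 (s, t)
    have a2 := k2 (g (s, t))
    have a3 : g (g (s, t)) = (s, t + 1) := by
      simp only [g]
      ext
      · simp
      · simp only
        ring
    rw [a3] at a2
    linear_combination a2 - a1
  have ek : ∀ w : Q, kk (1, 0) (0, 1) w = (sg w.1, w.2) := fun w => by simp [kk]
  obtain ⟨a1, a2⟩ := ann_of (D := D) (x := x) (n := (1, 0)) (v := (0, 1)) (by simp)
    (fun w => h0 _) (fun w w' => by
      rw [h2, ek, ek]
      constructor
      · rintro ⟨n, e⟩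
        have b1 : sg w'.1 = (-1 : ℝ) ^ n * sg w.1 := congrArg Prod.fst e
        have b2 : w'.2 = w.2 + n / 2 := congrArg Prod.snd e
        rcases Int.even_or_odd n with ⟨m, rfl⟩ | hn
        · rw [Even.neg_one_zpow ⟨m, rfl⟩, one_mul] at b1
          refine ⟨m, Prod.ext (by simpa using sg_inj b1) ?_⟩
          simp only [Prod.snd_add, b2]
          push_cast
          ring
        · rw [hn.neg_one_zpow] at b1
          linarith [sg_pos w.1, sg_pos w'.1]
      · rintro ⟨m, rfl⟩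
        refine ⟨m + m, ?_⟩
        rw [Even.neg_one_zpow ⟨m, rfl⟩]
        ext <;> simp) (Λ := fun t => F (sg 0, t) / 2) (by fun_prop)
    (fun t => by simp only [k3]) fun t => by
      rw [ek]
      exact ((hu _).2 _).2 (half (hu _).1 (hF _))
  exact ⟨_, a1, by rintro _ ⟨w, rfl⟩; exact h1 _, a2⟩

theorem ann_of_noWinding {D : Distr E M} {x : Data J E S M} {T : Set S} {ψ : Q → S}
    (h : AnnulusIn J T ψ) (h' : NoWinding x D ψ) : Ann J ψ ∧ range ψ ⊆ T ∧ ZW D x ψ := by
  obtain ⟨θ, h1, h2, h3⟩ := h'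
  refine ⟨⟨h.1, h.2.2⟩, by rintro _ ⟨w, rfl⟩; exact h.2.1 w, fun t => θ t * Complex.I,
    by fun_prop, fun t => by simp only [h2], fun t => ?_⟩
  rw [Complex.exp_ofReal_mul_I_re, Complex.exp_ofReal_mul_I_im]
  exact h3 t

end

end Pool.Agent.Lib.MP_72f1d0_gt.Rel
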